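import Pool.Agent.Helper66_PP.StmtsLQ
import Pool.Agent.Helper66_PP.Pos1
import Pool.Agent.Helper75_PP.Transport

/-!
# Squad PP, module LQN: normal subgroups of index a power of `ℓ`
-/

open scoped BigOperators

noncomputable section

namespace Pool.Agent.PP.H17

open Pool.Agent.Helper51_AWC Pool.Agent.Helper79_WRA Pool.Agent.PP

section grp

variable {X : Type} [Group X] [Finite X]

/-- A proper normal subgroup of index a power of `ℓ` is contained in a normal subgroup of
index `ℓ`. -/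
theorem exists_index {ℓ : ℕ} [hl : Fact ℓ.Prime] (X₀ : Subgroup X) [X₀.Normal] {n : ℕ}
    (h : X₀.index = ℓ ^ (n + 1)) : ∃ X₁ : Subgroup X, X₁.Normal ∧ X₀ ≤ X₁ ∧ X₁.index = ℓ := by
  classical
  have hp : ℓ.Prime := hl.out
  have hcard : Nat.card (X ⧸ X₀) = ℓ ^ (n + 1) := h
  obtain ⟨K, hK⟩ := Sylow.exists_subgroup_card_pow_prime (G := X ⧸ X₀) ℓ (n := n) (by
    rw [hcard]
    exact pow_dvd_pow ℓ (Nat.le_succ n))
  have hKi : K.index = ℓ := by
    have h1 := K.card_mul_index
    rw [hK, hcard, pow_succ] at h1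
    exact Nat.eq_of_mul_eq_mul_left (pow_pos hp.pos n) h1
  have hKn : K.Normal := by
    apply Subgroup.normal_of_index_eq_minFac_card
    rw [hKi, hcard, Nat.Prime.pow_minFac hp (Nat.succ_ne_zero n)]
  refine ⟨K.comap (QuotientGroup.mk' X₀), hKn.comap _, ?_, ?_⟩
  · intro x hx
    rw [Subgroup.mem_comap]
    have : (QuotientGroup.mk' X₀) x = 1 := (QuotientGroup.eq_one_iff x).2 hx
    rw [this]
    exact K.one_mem
  · rw [Subgroup.index_comap_of_surjective _ (QuotientGroup.mk'_surjective X₀), hKi]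

/-- Elements of order prime to `ℓ` lie in every normal subgroup of index `ℓ`. -/
theorem reg_mem {ℓ : ℕ} [hl : Fact ℓ.Prime] {X₁ : Subgroup X} (hn : X₁.Normal)
    (h : X₁.index = ℓ) {x : X} (hx : Reg ℓ x) : x ∈ X₁ := by
  have hp : ℓ.Prime := hl.out
  rw [← QuotientGroup.eq_one_iff, ← orderOf_eq_one_iff]
  have h1 : orderOf (x : X ⧸ X₁) ∣ orderOf x :=
    orderOf_map_dvd (QuotientGroup.mk' X₁) x
  have h2 : orderOf (x : X ⧸ X₁) ∣ ℓ := by
    rw [← h]
    exact orderOf_dvd_natCard _
  exact Nat.dvd_one.1 (hx ▸ Nat.dvd_gcd h1 h2)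

theorem mu_subgroupOf (Y X₁ : Subgroup X) (hY : Y ≤ X₁) : mu (Y.subgroupOf X₁) ≤ mu Y := by
  have h1 : (Subgroup.center X).subgroupOf X₁ ≤ Subgroup.center X₁ := by
    intro z hz
    rw [Subgroup.mem_center_iff]
    intro g
    apply Subtype.ext
    exact (Subgroup.mem_center_iff.1 (Subgroup.mem_subgroupOf.1 hz)) g
  have h2 : ((Subgroup.center X).subgroupOf X₁).relIndex (Y.subgroupOf X₁) =
      (Subgroup.center X).relIndex Y := by
    rw [Subgroup.relIndex_subgroupOf hY]
  unfold mu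
  rw [← h2]
  exact Subgroup.relIndex_le_of_le_left h1 Subgroup.index_ne_zero_of_finite

end grp

section pos

variable {F X : Type} [Field F] [Group X] [Finite X]

theorem idem_sub {e : X → F} (he : IsIdem e) {X₁ : Subgroup X} (hs : ∀ t, t ∉ X₁ → e t = 0) :
    IsIdem (fun t : X₁ => e t) := by
  constructor
  · intro x y
    exact he.1 x y
  · rw [← H66.mulF_sub hs, he.2]

theorem pos_sub {ℓ : ℕ} {e : X → F} {Y X₁ : Subgroup X} (hY : Y ≤ X₁) (he : Pos ℓ e Y) :
    Pos ℓ (fun t : X₁ => e t) (Y.subgroupOf X₁) := by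
  classical
  intro x hx hd
  have hx' : (x : X) ∈ Y := hx
  have hcard : Nat.card (Subgroup.centralizer ({x} : Set X₁) ⊓ Y.subgroupOf X₁ : Subgroup X₁) =
      Nat.card (Subgroup.centralizer ({(x : X)} : Set X) ⊓ Y : Subgroup X) := by
    refine Nat.card_congr
      { toFun := fun y => ⟨y.1.1, ?_⟩
        invFun := fun y => ⟨⟨y.1, hY y.2.2⟩, ?_⟩
        left_inv := fun y => rfl
        right_inv := fun y => rfl }
    · have h := Subgroup.mem_inf.1 y.2
      rw [Subgroup.mem_centralizer_singleton_iff] at h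
      rw [Subgroup.mem_inf, Subgroup.mem_centralizer_singleton_iff]
      exact ⟨congrArg Subtype.val h.1, h.2⟩
    · have h := Subgroup.mem_inf.1 y.2
      rw [Subgroup.mem_centralizer_singleton_iff] at h
      rw [Subgroup.mem_inf, Subgroup.mem_centralizer_singleton_iff]
      exact ⟨Subtype.ext h.1, h.2⟩
  have hcl : clsum F (Y.subgroupOf X₁) x = fun t : X₁ => clsum F Y (x : X) t := by
    funext t
    unfold clsum
    have hiff : (∃ q ∈ Y.subgroupOf X₁, t = q * x * q⁻¹) ↔
        ∃ q ∈ Y, (t : X) = q * x * q⁻¹ := by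
      constructor
      · rintro ⟨q, hq, rfl⟩
        exact ⟨q, hq, rfl⟩
      · rintro ⟨q, hq, h⟩
        exact ⟨⟨q, hY hq⟩, hq, Subtype.ext h⟩
    by_cases h : ∃ q ∈ Y, (t : X) = q * x * q⁻¹
    · rw [if_pos h, if_pos (hiff.2 h)]
    · rw [if_neg h, if_neg (fun h' => h (hiff.1 h'))]
  have hsupp : ∀ t, t ∉ X₁ → clsum F Y (x : X) t = 0 := by
    intro t ht
    unfold clsum
    rw [if_neg]
    rintro ⟨q, hq, rfl⟩
    exact ht (mul_mem (mul_mem (hY hq) x.2) (inv_mem (hY hq)))
  rw [hcard] at hd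
  obtain ⟨n, hn⟩ := he (x : X) hx' hd
  refine ⟨n, ?_⟩
  rw [hcl, ← H66.iter_sub hsupp]
  funext t
  exact congrFun hn (t : X)

end pos

/-- LQN -/
theorem lqn (hOSI : OsiStmt) (hLQ : LqStmt) : LqnStmt := by
  classical
  intro ℓ hl F _ hF
  have key : ∀ (n : ℕ) (X : Type) [Group X] [Finite X] (Y X₀ : Subgroup X), Y.Normal → X₀.Normal →
      Y ≤ X₀ → X₀.index = ℓ ^ n → ¬ ℓ ∣ Nat.card (Subgroup.centralizer (Y : Set X)) →
      (∀ (H : Type) [Group H] [Finite H] (i : H →* X) (Y' : Subgroup H), Function.Injective i →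
        Y'.Normal → Y'.map i ≤ Y → mu Y' < mu Y → YH ℓ F Y') →
      ∀ e : X → F, IsIdem e → Pos ℓ e Y →
        YY ℓ (Y.subgroupOf X₀) (fun t : X₀ => e t) = 0 → YY ℓ Y e = 0 := by
    intro n
    induction n with
    | zero =>
      intro X _ _ Y X₀ _ _ hYX h0 _ _ e _ _ hYY
      rw [pow_zero, Subgroup.index_eq_one] at h0
      rw [H75.YY_subgroup ℓ X₀ Y hYX e, h0] at hYY
      simp only [inf_top_eq] at hYY
      exact hYY
    | succ n ih =>
      intro X _ _ Y X₀ hY hX₀ hYX h0 hC hIH e he hpos hYY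
      obtain ⟨X₁, hX₁, h01, h1⟩ := exists_index X₀ h0
      have hYX₁ : Y ≤ X₁ := hYX.trans h01
      have hs : ∀ t, t ∉ X₁ → e t = 0 := by
        intro t ht
        apply hOSI ℓ F hF X e he t
        intro hreg
        exact ht (reg_mem hX₁ h1 hreg)
      refine hLQ ℓ F hF X Y X₁ hY hX₁ hYX₁ h1 hC hIH e he hpos ?_
      refine ih X₁ (Y.subgroupOf X₁) (X₀.subgroupOf X₁) (hY.subgroupOf X₁) (hX₀.subgroupOf X₁)
        (Subgroup.comap_mono hYX) ?_ ?_ ?_ (fun t : X₁ => e t) (idem_sub he hs)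
        (pos_sub hYX₁ hpos) ?_
      · have h2 : (X₀.subgroupOf X₁).index * X₁.index = X₀.index :=
          Subgroup.relIndex_mul_index h01
        rw [h1, h0, pow_succ] at h2
        exact Nat.eq_of_mul_eq_mul_right hl.out.pos h2
      · intro hdiv
        apply hC
        refine hdiv.trans ?_
        let f : Subgroup.centralizer ((Y.subgroupOf X₁ : Subgroup X₁) : Set X₁) →*
            Subgroup.centralizer (Y : Set X) :=
          { toFun := fun z => ⟨z.1.1, by
              rw [Subgroup.mem_centralizer_iff]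
              intro y hy
              have := Subgroup.mem_centralizer_iff.1 z.2 ⟨y, hYX₁ hy⟩ hy
              exact congrArg Subtype.val this⟩
            map_one' := rfl
            map_mul' := fun _ _ => rfl }
        have hf : Function.Injective f := by
          intro a b hab
          have h3 : ((f a : Subgroup.centralizer (Y : Set X)) : X) = (f b : X) := by rw [hab]
          exact Subtype.ext (Subtype.ext h3)
        exact Subgroup.card_dvd_of_injective f hf
      · intro H _ _ i Y' hi hY' hle hmu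
        refine hIH H (X₁.subtype.comp i) Y' (X₁.subtype_injective.comp hi) hY' ?_
          (lt_of_lt_of_le hmu (mu_subgroupOf Y X₁ hYX₁))
        rw [← Subgroup.map_map]
        calc (Y'.map i).map X₁.subtype ≤ (Y.subgroupOf X₁).map X₁.subtype := Subgroup.map_mono hle
          _ ≤ Y := by
            rw [Subgroup.map_subgroupOf_eq_of_le hYX₁]
      · let φ : X₀.subgroupOf X₁ →* X := X₁.subtype.comp (X₀.subgroupOf X₁).subtype
        have hφ : Function.Injective φ :=
          X₁.subtype_injective.comp (X₀.subgroupOf X₁).subtype_injective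
        have h2 := H75.YY_transport ℓ φ hφ
          ((Y.subgroupOf X₁).subgroupOf (X₀.subgroupOf X₁)) e
        have h3 : ((Y.subgroupOf X₁).subgroupOf (X₀.subgroupOf X₁)).map φ = Y := by
          have h5 : Y.subgroupOf X₁ ≤ X₀.subgroupOf X₁ := Subgroup.comap_mono hYX
          rw [← Subgroup.map_map, Subgroup.map_subgroupOf_eq_of_le h5,
            Subgroup.map_subgroupOf_eq_of_le hYX₁]
        have h4 : φ.range = X₀ := by
          rw [MonoidHom.range_comp, Subgroup.range_subtype, Subgroup.map_subgroupOf_eq_of_le h01]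
        rw [h3, h4, ← H75.YY_subgroup ℓ X₀ Y hYX e, hYY] at h2
        exact h2
  intro X _ _ Y X₀ hY hX₀ hYX ⟨n, hn⟩ hC hIH e he hpos hYY
  exact key n X Y X₀ hY hX₀ hYX hn hC hIH e he hpos hYY

end Pool.Agent.PP.H17
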