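import Pool.Agent.Helper98_PP.StmtsR2

/-!
# Squad PP, module PRV: central products of two stable factors
-/

open scoped BigOperators

noncomputable section

namespace Pool.Agent.PP.H17

open Pool.Agent.Helper51_AWC Pool.Agent.Helper79_WRA Pool.Agent.PP

section fin

variable {F A B : Type} [Field F] [Group A] [Group B]

theorem mulF_eq [Fintype A] (a b : A → F) (x : A) : mulF a b x = ∑ t, a t * b (t⁻¹ * x) :=
  finsum_eq_sum_of_fintype _

theorem mulF_comm [Finite A] {a : A → F} (ha : IsCl a) (b : A → F) : mulF a b = mulF b a := by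
  have := Fintype.ofFinite A
  funext x
  rw [mulF_eq, mulF_eq, ← Equiv.sum_comp ((Equiv.inv A).trans (Equiv.mulLeft x))
    (fun t => a t * b (t⁻¹ * x))]
  refine Finset.sum_congr rfl fun s _ => ?_
  show a (x * s⁻¹) * b ((x * s⁻¹)⁻¹ * x) = b s * a (s⁻¹ * x)
  have h1 : (x * s⁻¹)⁻¹ * x = s := by group
  have h2 : a (s⁻¹ * x) = a (x * s⁻¹) := by
    have := ha (s⁻¹ * x) s
    have h3 : s * (s⁻¹ * x) * s⁻¹ = x * s⁻¹ := by group
    rw [h3] at this
    exact this.symm
  rw [h1, h2, mul_comm]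

theorem blk_eq [Finite A] {a b : A → F} (ha : IsBlk a) (hb : IsBlk b) (h : mulF a b ≠ 0) :
    a = b := by
  have h1 : mulF a b = a := (ha.2.2 b hb.1).resolve_right h
  have h2 : mulF b a = b := by
    refine (hb.2.2 a ha.1).resolve_right ?_
    rw [← mulF_comm ha.1.1]
    exact h
  rw [← h1, mulF_comm ha.1.1, h2]

theorem mulF_zero_right [Finite A] (a : A → F) : mulF a 0 = 0 := by
  have := Fintype.ofFinite A
  funext x
  rw [mulF_eq]
  simp

/-- pushforward -/
def psh [Fintype A] [DecidableEq B] (p : A →* B) (a : A → F) : B → F :=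
  fun y => ∑ x, if p x = y then a x else 0

theorem psh_mul [Fintype A] [Fintype B] [DecidableEq B] (p : A →* B) (a b : A → F) :
    psh p (mulF a b) = mulF (psh p a) (psh p b) := by
  funext y
  rw [mulF_eq]
  unfold psh
  have h1 : ∀ u : A, (if p u = y then mulF a b u else 0) =
      ∑ x, (if p u = y then a x * b (x⁻¹ * u) else 0) := by
    intro u
    rw [mulF_eq]
    split_ifs
    · rfl
    · rw [Finset.sum_const_zero]
  simp_rw [h1]
  rw [Finset.sum_comm]
  have h2 : ∀ x : A, ∑ u, (if p u = y then a x * b (x⁻¹ * u) else 0) =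
      ∑ z, (if p x * p z = y then a x * b z else 0) := by
    intro x
    rw [← Equiv.sum_comp (Equiv.mulLeft x) (fun u => if p u = y then a x * b (x⁻¹ * u) else 0)]
    refine Finset.sum_congr rfl fun z _ => ?_
    show (if p (x * z) = y then a x * b (x⁻¹ * (x * z)) else 0) = _
    rw [map_mul, inv_mul_cancel_left]
  simp_rw [h2]
  have h3 : ∀ t : B, (∑ x, if p x = t then a x else 0) *
      (∑ z, if p z = t⁻¹ * y then b z else 0) =
      ∑ x, ∑ z, (if p x = t then (if p x * p z = y then a x * b z else 0) else 0) := by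
    intro t
    rw [Finset.sum_mul_sum]
    refine Finset.sum_congr rfl fun x _ => Finset.sum_congr rfl fun z _ => ?_
    by_cases hx : p x = t
    · subst hx
      rw [if_pos rfl, if_pos rfl]
      by_cases hz : p x * p z = y
      · rw [if_pos hz, if_pos (by rw [← hz, inv_mul_cancel_left])]
      · rw [if_neg hz, if_neg (by
          intro h
          apply hz
          rw [h, mul_inv_cancel_left]), mul_zero]
    · rw [if_neg hx, if_neg hx, zero_mul]
  simp_rw [h3]
  symm
  rw [Finset.sum_comm]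
  refine Finset.sum_congr rfl fun x _ => ?_
  rw [Finset.sum_comm]
  refine Finset.sum_congr rfl fun z _ => ?_
  rw [Finset.sum_ite_eq]
  simp

theorem psh_fib [Fintype A] [DecidableEq B] (p : A →* B) (hp : Function.Surjective p)
    (c : F) (hc : c * (Nat.card p.ker : F) = 1) (f : B → F) :
    psh p (fun x => c * f (p x)) = f := by
  classical
  funext y
  unfold psh
  obtain ⟨x0, rfl⟩ := hp y
  have h1 : ∀ x : A, (if p x = p x0 then c * f (p x) else 0) =
      (if p x = p x0 then c * f (p x0) else 0) := by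
    intro x
    split_ifs with h
    · rw [h]
    · rfl
  simp_rw [h1]
  rw [← Finset.sum_filter, Finset.sum_const]
  have h2 : (Finset.univ.filter fun x => p x = p x0).card = Nat.card p.ker := by
    rw [Nat.card_eq_fintype_card, ← Fintype.card_subtype]
    refine Fintype.card_congr
      { toFun := fun x => ⟨x.1 * x0⁻¹, ?_⟩
        invFun := fun k => ⟨k.1 * x0, ?_⟩
        left_inv := ?_
        right_inv := ?_ }
    · rw [MonoidHom.mem_ker, map_mul, map_inv, x.2, mul_inv_cancel]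
    · rw [map_mul, MonoidHom.mem_ker.1 k.2, one_mul]
    · intro x
      exact Subtype.ext (inv_mul_cancel_right _ _)
    · intro k
      exact Subtype.ext (mul_inv_cancel_right _ _)
  rw [h2, nsmul_eq_mul, ← mul_assoc, mul_comm (Nat.card p.ker : F) c, hc, one_mul]

/-- products of functions on a direct product -/
theorem mulF_prod [Finite A] [Finite B] (a a' : A → F) (b b' : B → F) :
    mulF (fun y : A × B => a y.1 * b y.2) (fun y : A × B => a' y.1 * b' y.2) =
      fun y => mulF a a' y.1 * mulF b b' y.2 := by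
  have := Fintype.ofFinite A
  have := Fintype.ofFinite B
  funext y
  rw [mulF_eq, mulF_eq, mulF_eq, Fintype.sum_prod_type, Finset.sum_mul_sum]
  refine Finset.sum_congr rfl fun s _ => Finset.sum_congr rfl fun t _ => ?_
  show a s * b t * (a' (s⁻¹ * y.1) * b' (t⁻¹ * y.2)) = _
  ring

theorem mulF_equiv [Finite A] (e : A ≃* A) (a a' : A → F) :
    mulF (fun x => a (e x)) (fun x => a' (e x)) = fun x => mulF a a' (e x) := by
  funext x
  have := Fintype.ofFinite A
  rw [mulF_eq, mulF_eq, ← Equiv.sum_comp e.toEquiv (fun t => a t * a' (t⁻¹ * e x))]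
  refine Finset.sum_congr rfl fun t _ => ?_
  have e1 : e.toEquiv t = e t := rfl
  rw [e1, ← map_inv, ← map_mul]

theorem blk_equiv [Finite A] (e : A ≃* A) {a : A → F} (h : IsBlk a) : IsBlk (fun x => a (e x)) := by
  have hid : ∀ (e : A ≃* A) (a : A → F), IsIdem a → IsIdem (fun x => a (e x)) := by
    intro e a h
    refine ⟨?_, by rw [mulF_equiv, h.2]⟩
    intro x y
    change a (e (y * x * y⁻¹)) = a (e x)
    rw [map_mul, map_mul, map_inv, h.1]
  refine ⟨hid e a h.1, fun h0 => h.2.1 ?_, fun g hg => ?_⟩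
  · funext y
    have := congrFun h0 (e.symm y)
    change a (e (e.symm y)) = 0 at this
    rw [MulEquiv.apply_symm_apply] at this
    exact this
  · have h1 : g = fun x => (fun y => g (e.symm y)) (e x) := by
      funext x
      change g x = g (e.symm (e x))
      rw [MulEquiv.symm_apply_apply]
    rw [h1, mulF_equiv e a (fun y => g (e.symm y))]
    rcases h.2.2 _ (hid e.symm g hg) with h2 | h2
    · left; rw [h2]
    · right; rw [h2]; rfl

end fin

section sub

variable {F Y : Type} [Field F] [Group Y] [Finite Y]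

theorem ext0_mem {K : Subgroup Y} (b : K → F) {x : Y} (hx : x ∈ K) : ext0 K b x = b ⟨x, hx⟩ := by
  unfold ext0
  rw [dif_pos hx]

theorem ext0_not {K : Subgroup Y} (b : K → F) {x : Y} (hx : x ∉ K) : ext0 K b x = 0 := by
  unfold ext0
  rw [dif_neg hx]

/-- the restriction of an automorphism to a stable subgroup -/
def rst (K : Subgroup Y) (α : MulAut Y) (h : K.map α.toMonoidHom = K) : MulAut K :=
  (α.subgroupMap K).trans (MulEquiv.subgroupCongr h)

omit [Finite Y] in
theorem rst_spec (K : Subgroup Y) (α : MulAut Y) (h : K.map α.toMonoidHom = K) :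
    ResA K α (rst K α h) := fun _ => rfl

omit [Finite Y] in
theorem map_of_res {K : Subgroup Y} {α : MulAut Y} {α₁ : MulAut K} (h : ResA K α α₁) :
    K.map α.toMonoidHom = K := by
  ext y
  constructor
  · rintro ⟨x, hx, rfl⟩
    have := h ⟨x, hx⟩
    show α x ∈ K
    rw [← this]
    exact (α₁ ⟨x, hx⟩).2
  · intro hy
    refine ⟨(α₁⁻¹ ⟨y, hy⟩ : K), (α₁⁻¹ ⟨y, hy⟩ : K).2, ?_⟩
    show α (α₁⁻¹ ⟨y, hy⟩ : K) = y
    rw [← h, MulAut.apply_inv_self]

omit [Finite Y] in
theorem res_mul {K : Subgroup Y} {α β : MulAut Y} {α₁ β₁ : MulAut K} (h : ResA K α α₁)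
    (h' : ResA K β β₁) : ResA K (α * β) (α₁ * β₁) := by
  intro k
  rw [MulAut.mul_apply, MulAut.mul_apply, h, h']

omit [Finite Y] in
theorem res_inv {K : Subgroup Y} {α : MulAut Y} {α₁ : MulAut K} (h : ResA K α α₁) :
    ResA K α⁻¹ α₁⁻¹ := by
  intro k
  apply α.injective
  rw [MulAut.apply_inv_self, ← h, MulAut.apply_inv_self]

omit [Finite Y] in
theorem res_kap {K : Subgroup Y} {α β : MulAut Y} {α₁ β₁ : MulAut K} (h : ResA K α α₁)
    (h' : ResA K β β₁) : ResA K (kap α β) (kap α₁ β₁) :=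
  res_mul (res_mul (res_mul h h') (res_inv h)) (res_inv h')

omit [Finite Y] in
theorem mem_iff_of_res {K : Subgroup Y} {α : MulAut Y} {α₁ : MulAut K} (h : ResA K α α₁) (x : Y) :
    α x ∈ K ↔ x ∈ K := by
  constructor
  · intro hx
    have h1 := (α₁⁻¹ ⟨α x, hx⟩ : K).2
    rw [res_inv h] at h1
    rw [MulAut.inv_apply_self] at h1
    exact h1
  · intro hx
    have := h ⟨x, hx⟩
    rw [← this]
    exact (α₁ ⟨x, hx⟩).2

/-- the block of the subgroup is stable -/
theorem blkU_stable {K : Subgroup Y} {f : Y → F} {f₁ : K → F} {α : MulAut Y} {α₁ : MulAut K}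
    (h : ResA K α α₁) (hfa : ∀ y, f (α y) = f y) (hf : BlkU K f f₁) :
    BlkU K f (fun k => f₁ (α₁ k)) := by
  refine ⟨blk_equiv α₁ hf.1, ?_⟩
  have h1 : ext0 K (fun k => f₁ (α₁ k)) = fun x => ext0 K f₁ (α x) := by
    funext x
    by_cases hx : x ∈ K
    · have hx' : α x ∈ K := (mem_iff_of_res h x).2 hx
      rw [ext0_mem _ hx, ext0_mem _ hx']
      congr 1
      exact Subtype.ext (h ⟨x, hx⟩)
    · have hx' : α x ∉ K := fun hc => hx ((mem_iff_of_res h x).1 hc)
      rw [ext0_not _ hx, ext0_not _ hx']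
  have h2 : f = fun x => f (α x) := by
    funext x
    rw [hfa]
  rw [h1]
  conv_lhs => rw [h2]
  rw [mulF_equiv α (ext0 K f₁) f, hf.2]
  exact h2.symm

end sub

/-- PRV. -/
theorem prv (hlz : LzStmt) (hprd : PrdStmt) (hfbk : FbkStmt) (hfcu : FcuStmt) (hscl : SclStmt) :
    PrvStmt := by
  classical
  intro ℓ _ F _ hF Y _ _ K K' hKK hsup hcen f α β α₁ β₁ hα hβ hαK' hβK' f₁ hf₁ hvan
  intro τ hτ w wi hT
  have := Fintype.ofFinite Y
  have hsup' : K' ⊔ K = ⊤ := by rw [sup_comm]; exact hsup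
  have hKK' : ∀ x ∈ K', ∀ y ∈ K, x * y = y * x := fun x hx y hy => (hKK y hy x hx).symm
  set α₂ : MulAut K' := rst K' α hαK' with hα₂
  set β₂ : MulAut K' := rst K' β hβK' with hβ₂
  have hα2 : ResA K' α α₂ := rst_spec K' α hαK'
  have hβ2 : ResA K' β β₂ := rst_spec K' β hβK'
  -- the block of the second factor
  obtain ⟨⟨f₂, hf₂⟩, huniq₂, -⟩ := hfbk ℓ F hF Y K' K hKK' hsup' hcen f hT.blk
  obtain ⟨-, huniq₁, hff⟩ := hfbk ℓ F hF Y K K' hKK hsup hcen f hT.blk
  have hmul : mulF (ext0 K f₁) (ext0 K' f₂) = f := hff f₁ f₂ hf₁ hf₂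
  have fa1 : ∀ k, f₁ (α₁ k) = f₁ k := fun k =>
    congrFun (huniq₁ _ _ (blkU_stable hα hT.fa hf₁) hf₁) k
  have fb1 : ∀ k, f₁ (β₁ k) = f₁ k := fun k =>
    congrFun (huniq₁ _ _ (blkU_stable hβ hT.fb hf₁) hf₁) k
  have fa2 : ∀ k, f₂ (α₂ k) = f₂ k := fun k =>
    congrFun (huniq₂ _ _ (blkU_stable hα2 hT.fa hf₂) hf₂) k
  have fb2 : ∀ k, f₂ (β₂ k) = f₂ k := fun k =>
    congrFun (huniq₂ _ _ (blkU_stable hβ2 hT.fb hf₂) hf₂) k
  -- the units of the factors
  obtain ⟨w₁, wi₁, hU₁⟩ := hfcu ℓ F hF Y K K' hKK hsup hcen f hT.blk f₁ hf₁ (kap α β)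
    (kap α₁ β₁) (res_kap hα hβ) (map_of_res (res_kap hα2 hβ2)) w wi hT.unt
  obtain ⟨w₂, wi₂, hU₂⟩ := hfcu ℓ F hF Y K' K hKK' hsup' hcen f hT.blk f₂ hf₂ (kap α β)
    (kap α₂ β₂) (res_kap hα2 hβ2) (map_of_res (res_kap hα hβ)) w wi hT.unt
  have hT₁ : Torus f₁ α₁ β₁ w₁ wi₁ := ⟨hf₁.1, fa1, fb1, hU₁⟩
  have hT₂ : Torus f₂ α₂ β₂ w₂ wi₂ := ⟨hf₂.1, fa2, fb2, hU₂⟩
  obtain ⟨hblk, hDD⟩ := hprd ℓ F hF K K' f₁ f₂ α₁ β₁ α₂ β₂ w₁ wi₁ w₂ wi₂ hT₁ hT₂
  -- the covering
  let p : K × K' →* Y := MonoidHom.noncommCoprod K.subtype K'.subtype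
    (fun x y => hKK x x.2 y y.2)
  have hp : ∀ x : K × K', p x = (x.1 : Y) * x.2 := fun x => rfl
  have hpsurj : Function.Surjective p := by
    rw [← MonoidHom.range_eq_top, MonoidHom.noncommCoprod_range, Subgroup.range_subtype,
      Subgroup.range_subtype, hsup]
  have hcentral : ∀ x : K × K', p x = 1 → (x.1 : Y) ∈ Subgroup.center Y := by
    intro x hx
    have h1 : (x.1 : Y) = (x.2 : Y)⁻¹ := by
      rw [hp] at hx
      exact eq_inv_of_mul_eq_one_left hx
    have h2 : (x.1 : Y) ∈ K' := by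
      rw [h1]
      exact K'.inv_mem x.2.2
    have h3 : K ⊔ K' ≤ Subgroup.centralizer {(x.1 : Y)} := by
      rw [sup_le_iff]
      constructor
      · intro y hy
        rw [Subgroup.mem_centralizer_singleton_iff]
        exact hKK y hy _ h2
      · intro y hy
        rw [Subgroup.mem_centralizer_singleton_iff]
        exact hKK' y hy _ x.1.2
    rw [Subgroup.mem_center_iff]
    intro y
    have h4 : y ∈ Subgroup.centralizer {(x.1 : Y)} := h3 (by rw [hsup]; trivial)
    exact Subgroup.mem_centralizer_singleton_iff.1 h4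
  have hker : p.ker ≤ Subgroup.center (K × K') := by
    intro x hx
    have h1 := hcentral x hx
    have h2 : (x.2 : Y) = (x.1 : Y)⁻¹ := by
      have h3 : (x.1 : Y) * x.2 = 1 := hx
      exact eq_inv_of_mul_eq_one_right h3
    rw [Subgroup.mem_center_iff] at h1 ⊢
    intro y
    apply Prod.ext
    · apply Subtype.ext
      exact h1 y.1
    · apply Subtype.ext
      show (y.2 : Y) * x.2 = x.2 * y.2
      rw [h2]
      have h3 := h1 y.2
      have h4 : (y.2 : Y) = (x.1 : Y) * y.2 * (x.1 : Y)⁻¹ := by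
        rw [← h3, mul_inv_cancel_right]
      conv_rhs => rw [h4]
      group
  have hcard : ¬ ℓ ∣ Nat.card p.ker := by
    intro hdvd
    apply hcen
    let q : p.ker →* Subgroup.center Y :=
      { toFun := fun x => ⟨(x.1.1 : Y), hcentral x.1 x.2⟩
        map_one' := rfl
        map_mul' := fun _ _ => rfl }
    have hq : Function.Injective q := by
      intro x y hxy
      have h1 : ((x.1.1 : K) : Y) = ((y.1.1 : K) : Y) := congrArg (fun z : Subgroup.center Y => (z : Y)) hxy
      have h2 : (x.1.1 : Y) * x.1.2 = 1 := x.2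
      have h3 : (y.1.1 : Y) * y.1.2 = 1 := y.2
      apply Subtype.ext
      apply Prod.ext
      · exact Subtype.ext h1
      · apply Subtype.ext
        rw [eq_inv_of_mul_eq_one_right h2, eq_inv_of_mul_eq_one_right h3, h1]
    exact hdvd.trans (Subgroup.card_dvd_of_injective q hq)
  have hpα : ∀ y, p ((MulEquiv.prodCongr α₁ α₂) y) = α (p y) := by
    intro y
    rw [hp, hp, map_mul]
    show ((α₁ y.1 : K) : Y) * (α₂ y.2 : K') = _
    rw [hα, hα2]
  have hpβ : ∀ y, p ((MulEquiv.prodCongr β₁ β₂) y) = β (p y) := by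
    intro y
    rw [hp, hp, map_mul]
    show ((β₁ y.1 : K) : Y) * (β₂ y.2 : K') = _
    rw [hβ, hβ2]
  obtain ⟨hblk', hlz'⟩ := hlz ℓ F hF (K × K') Y p hpsurj hker hcard f α β
    (MulEquiv.prodCongr α₁ α₂) (MulEquiv.prodCongr β₁ β₂) hT.blk hpα hpβ
  -- the two blocks of the direct product agree
  have hc0 : (Nat.card p.ker : F) ≠ 0 := by
    have := hF.char
    intro h0
    exact hcard ((CharP.cast_eq_zero_iff F ℓ _).1 h0)
  have := Fintype.ofFinite (K × K')
  have hpush1 : psh p (fun y => (Nat.card p.ker : F)⁻¹ * f (p y)) = f :=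
    psh_fib p hpsurj _ (inv_mul_cancel₀ hc0) f
  have hpush2 : psh p (fun y : K × K' => f₁ y.1 * f₂ y.2) = f := by
    rw [← hmul]
    funext y
    have := Fintype.ofFinite K
    have := Fintype.ofFinite K'
    rw [mulF_eq]
    unfold psh
    have e1 : ∑ x : K × K', (if p x = y then f₁ x.1 * f₂ x.2 else 0) =
        ∑ k : K, ∑ k' : K', (if (k : Y) * k' = y then f₁ k * f₂ k' else 0) := by
      rw [← Fintype.sum_prod_type']
      refine Finset.sum_congr ?_ fun x _ => rfl
      ext x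
      simp
    rw [e1]
    have e2 : ∑ t : Y, ext0 K f₁ t * ext0 K' f₂ (t⁻¹ * y) =
        ∑ k : K, f₁ k * ext0 K' f₂ ((k : Y)⁻¹ * y) := by
      symm
      apply Fintype.sum_of_injective (fun k : K => (k : Y)) Subtype.val_injective
      · intro x hx
        have hx' : x ∉ K := fun h => hx ⟨⟨x, h⟩, rfl⟩
        rw [ext0_not _ hx', zero_mul]
      · intro k
        rw [ext0_mem _ k.2]
    rw [e2]
    refine Finset.sum_congr rfl fun k _ => ?_
    by_cases hk : (k : Y)⁻¹ * y ∈ K'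
    · rw [ext0_mem _ hk, Finset.sum_eq_single (⟨(k : Y)⁻¹ * y, hk⟩ : K')]
      · rw [if_pos (mul_inv_cancel_left _ _)]
      · intro k' _ hne
        rw [if_neg]
        intro hc
        apply hne
        apply Subtype.ext
        show (k' : Y) = (k : Y)⁻¹ * y
        rw [← hc, inv_mul_cancel_left]
      · intro h
        exact absurd (Finset.mem_univ _) h
    · rw [ext0_not _ hk, mul_zero]
      apply Finset.sum_eq_zero
      intro k' _
      rw [if_neg]
      intro hc
      apply hk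
      rw [← hc, inv_mul_cancel_left]
      exact k'.2
  have hne : mulF (fun y : K × K' => (Nat.card p.ker : F)⁻¹ * f (p y))
      (fun y : K × K' => f₁ y.1 * f₂ y.2) ≠ 0 := by
    intro h0
    have h1 := psh_mul p (fun y : K × K' => (Nat.card p.ker : F)⁻¹ * f (p y))
      (fun y : K × K' => f₁ y.1 * f₂ y.2)
    rw [h0, hpush1, hpush2, hT.blk.1.2] at h1
    apply hT.blk.2.1
    rw [← h1]
    funext y
    unfold psh
    simp
  have hfeq := blk_eq hblk' hblk hne
  -- the product of the torus data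
  have hkap : kap (MulEquiv.prodCongr α₁ α₂ : MulAut (K × K')) (MulEquiv.prodCongr β₁ β₂) =
      MulEquiv.prodCongr (kap α₁ β₁) (kap α₂ β₂) := rfl
  have hTp : Torus (fun y : K × K' => f₁ y.1 * f₂ y.2) (MulEquiv.prodCongr α₁ α₂)
      (MulEquiv.prodCongr β₁ β₂) (fun y => w₁ y.1 * w₂ y.2) (fun y => wi₁ y.1 * wi₂ y.2) := by
    refine ⟨hblk, ?_, ?_, ?_⟩
    · intro y
      show f₁ (α₁ y.1) * f₂ (α₂ y.2) = _
      rw [fa1, fa2]
    · intro y
      show f₁ (β₁ y.1) * f₂ (β₂ y.2) = _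
      rw [fb1, fb2]
    · rw [hkap]
      refine ⟨?_, ?_, ?_, ?_, ?_⟩
      · rw [mulF_prod, hU₁.fw, hU₂.fw]
      · rw [mulF_prod, hU₁.fwi, hU₂.fwi]
      · rw [mulF_prod, hU₁.unit, hU₂.unit]
      · rw [mulF_prod, hU₁.unit', hU₂.unit']
      · intro n y
        show w₁ ((kap α₁ β₁)⁻¹ n.1 * y.1 * n.1⁻¹) * w₂ ((kap α₂ β₂)⁻¹ n.2 * y.2 * n.2⁻¹) = _
        rw [hU₁.comm, hU₂.comm]
  have hV : Van ℓ (fun y : K × K' => f₁ y.1 * f₂ y.2) (MulEquiv.prodCongr α₁ α₂)
      (MulEquiv.prodCongr β₁ β₂) := by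
    intro τ' hτ' w' wi' hT'
    refine hscl ℓ F hF (K × K') _ _ _ _ _ w' wi' hTp hT' τ' hτ' ?_
    rw [hDD τ' hτ', hvan τ' hτ' w₁ wi₁ hT₁, zero_mul]
  rw [hfeq] at hlz'
  exact hlz' hV τ hτ w wi hT

end Pool.Agent.PP.H17
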