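import Pool.Agent.Helper98_PP.StmtsR2
import Pool.Agent.Helper21_PP.Tsb

/-!
Squad PP (AWC), part R2, module CYD: tensor powers of a representation and the cyclic permutation
of the factors.
-/

open scoped BigOperators

set_option linter.unusedSectionVars false

noncomputable section

namespace Pool.Agent.PP.H17

open Pool.Agent.Helper51_AWC Pool.Agent.Helper79_WRA Pool.Agent.PP

section mat

variable {F : Type} [Field F]

/-- the tensor product of matrices -/
def tp {q n : ℕ} (M : Fin q → Matrix (Fin n) (Fin n) F) :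
    Matrix (Fin q → Fin n) (Fin q → Fin n) F := fun a b => ∏ j, M j (a j) (b j)

theorem tp_mul {q n : ℕ} (M N : Fin q → Matrix (Fin n) (Fin n) F) :
    tp M * tp N = tp (fun j => M j * N j) := by
  ext a b
  rw [Matrix.mul_apply]
  unfold tp
  simp only [Matrix.mul_apply, Finset.prod_univ_sum, Fintype.piFinset_univ,
    Finset.prod_mul_distrib]

theorem tp_one {q n : ℕ} : tp (fun _ : Fin q => (1 : Matrix (Fin n) (Fin n) F)) = 1 := by
  ext a b
  unfold tp
  rw [Matrix.one_apply]
  split_ifs with h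
  · subst h
    exact Finset.prod_eq_one fun j _ => Matrix.one_apply_eq _
  · obtain ⟨j, hj⟩ := Function.ne_iff.mp h
    exact Finset.prod_eq_zero (Finset.mem_univ j) (Matrix.one_apply_ne hj)

theorem tp_smul {q n : ℕ} (c : Fin q → F) (M : Fin q → Matrix (Fin n) (Fin n) F) :
    tp (fun j => c j • M j) = (∏ j, c j) • tp M := by
  ext a b
  unfold tp
  rw [Matrix.smul_apply, smul_eq_mul, ← Finset.prod_mul_distrib]
  rfl

theorem tp_scalar {q n : ℕ} (c : Fin q → F) :
    tp (fun j => Matrix.scalar (Fin n) (c j)) = Matrix.scalar (Fin q → Fin n) (∏ j, c j) := by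
  have h1 : (fun j => Matrix.scalar (Fin n) (c j)) = fun j => c j • (1 : Matrix (Fin n) (Fin n) F) := by
    funext j
    rw [Matrix.scalar_apply, ← Matrix.smul_one_eq_diagonal]
  rw [h1, tp_smul c (fun _ => 1), tp_one, Matrix.scalar_apply, ← Matrix.smul_one_eq_diagonal]

theorem tp_sum {q n : ℕ} {T : Type} [Fintype T] (g : Fin q → T → Matrix (Fin n) (Fin n) F) :
    tp (fun j => ∑ t, g j t) = ∑ t : Fin q → T, tp (fun j => g j (t j)) := by
  ext a b
  unfold tp
  simp only [Matrix.sum_apply, Finset.prod_univ_sum, Fintype.piFinset_univ]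

theorem tp_trace {q n : ℕ} (M : Fin q → Matrix (Fin n) (Fin n) F) :
    (tp M).trace = ∏ j, (M j).trace := by
  unfold Matrix.trace tp
  simp only [Matrix.diag_apply, Finset.prod_univ_sum, Fintype.piFinset_univ]

/-- the reindexing -/
def rx (q n : ℕ) : Matrix (Fin q → Fin n) (Fin q → Fin n) F ≃ₐ[F]
    Matrix (Fin (n ^ q)) (Fin (n ^ q)) F :=
  Matrix.reindexAlgEquiv F F finFunctionFinEquiv

theorem rx_scalar (q n : ℕ) (c : F) :
    rx q n (Matrix.scalar (Fin q → Fin n) c) = Matrix.scalar (Fin (n ^ q)) c := by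
  rw [Matrix.scalar_apply, ← Matrix.smul_one_eq_diagonal, map_smul, map_one, Matrix.scalar_apply,
    ← Matrix.smul_one_eq_diagonal]

theorem rx_trace (q n : ℕ) (M : Matrix (Fin q → Fin n) (Fin q → Fin n) F) :
    (rx q n M).trace = M.trace := by
  unfold rx Matrix.trace
  simp only [Matrix.reindexAlgEquiv_apply, Matrix.diag_apply, Matrix.reindex_apply,
    Matrix.submatrix_apply]
  exact Equiv.sum_comp finFunctionFinEquiv.symm (fun a => M a a)

/-- the cyclic permutation of the entries of a function -/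
def rot {p : ℕ} {T : Type} (a : Fin (p + 1) → T) : Fin (p + 1) → T :=
  Fin.cons (a (Fin.last p)) (fun j => a j.castSucc)

/-- the inverse -/
def rot' {p : ℕ} {T : Type} (a : Fin (p + 1) → T) : Fin (p + 1) → T :=
  Fin.snoc (fun j => a j.succ) (a 0)

theorem rot_zero {p : ℕ} {T : Type} (a : Fin (p + 1) → T) : rot a 0 = a (Fin.last p) := by
  unfold rot
  rw [Fin.cons_zero]

theorem rot_succ {p : ℕ} {T : Type} (a : Fin (p + 1) → T) (j : Fin p) :
    rot a j.succ = a j.castSucc := by
  unfold rot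
  rw [Fin.cons_succ]

theorem rot'_rot {p : ℕ} {T : Type} (a : Fin (p + 1) → T) : rot' (rot a) = a := by
  funext j
  refine Fin.lastCases ?_ (fun i => ?_) j
  · unfold rot'
    rw [Fin.snoc_last, rot_zero]
  · unfold rot'
    rw [Fin.snoc_castSucc, rot_succ]

theorem rot_rot' {p : ℕ} {T : Type} (a : Fin (p + 1) → T) : rot (rot' a) = a := by
  funext j
  refine Fin.cases ?_ (fun i => ?_) j
  · rw [rot_zero]
    unfold rot'
    rw [Fin.snoc_last]
  · rw [rot_succ]
    unfold rot'
    rw [Fin.snoc_castSucc]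

/-- the cyclic permutation as an equivalence -/
def rotE (p : ℕ) (T : Type) : (Fin (p + 1) → T) ≃ (Fin (p + 1) → T) where
  toFun := rot
  invFun := rot'
  left_inv := rot'_rot
  right_inv := rot_rot'

open Classical in
/-- the permutation matrix -/
def pm (F : Type) [Field F] (p n : ℕ) : Matrix (Fin (p + 1) → Fin n) (Fin (p + 1) → Fin n) F :=
  fun a b => if a = rotE p (Fin n) b then 1 else 0

open Classical in
/-- the inverse permutation matrix -/
def pm' (F : Type) [Field F] (p n : ℕ) : Matrix (Fin (p + 1) → Fin n) (Fin (p + 1) → Fin n) F :=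
  fun a b => if rotE p (Fin n) a = b then 1 else 0

theorem pm_mul {p n : ℕ} (M : Matrix (Fin (p + 1) → Fin n) (Fin (p + 1) → Fin n) F)
    (a b : Fin (p + 1) → Fin n) : (pm F p n * M) (rotE p (Fin n) a) b = M a b := by
  rw [Matrix.mul_apply, Finset.sum_eq_single a]
  · unfold pm
    rw [if_pos rfl, one_mul]
  · intro c _ hc
    unfold pm
    rw [if_neg fun h => hc ((rotE p (Fin n)).injective h).symm, zero_mul]
  · intro h; exact absurd (Finset.mem_univ _) h

theorem mul_pm {p n : ℕ} (M : Matrix (Fin (p + 1) → Fin n) (Fin (p + 1) → Fin n) F)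
    (a b : Fin (p + 1) → Fin n) : (M * pm F p n) a b = M a (rotE p (Fin n) b) := by
  rw [Matrix.mul_apply, Finset.sum_eq_single (rotE p (Fin n) b)]
  · unfold pm
    rw [if_pos rfl, mul_one]
  · intro c _ hc
    unfold pm
    rw [if_neg hc, mul_zero]
  · intro h; exact absurd (Finset.mem_univ _) h

theorem tp_rot {p n : ℕ} (M : Fin (p + 1) → Matrix (Fin n) (Fin n) F)
    (a b : Fin (p + 1) → Fin n) : tp (rot M) (rotE p (Fin n) a) (rotE p (Fin n) b) = tp M a b := by
  show ∏ j, rot M j (rot a j) (rot b j) = ∏ j, M j (a j) (b j)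
  rw [Fin.prod_univ_succ, Fin.prod_univ_castSucc, mul_comm, rot_zero, rot_zero, rot_zero]
  refine congrArg (fun z => z * _) (Finset.prod_congr rfl fun j _ => ?_)
  rw [rot_succ, rot_succ, rot_succ]

theorem pm_tp {p n : ℕ} (M : Fin (p + 1) → Matrix (Fin n) (Fin n) F) :
    pm F p n * tp M = tp (rot M) * pm F p n := by
  ext a b
  obtain ⟨a', rfl⟩ := (rotE p (Fin n)).surjective a
  rw [pm_mul, mul_pm, tp_rot]

/-- the permutation matrix as a unit -/
def pmU (F : Type) [Field F] (p n : ℕ) :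
    (Matrix (Fin (p + 1) → Fin n) (Fin (p + 1) → Fin n) F)ˣ where
  val := pm F p n
  inv := pm' F p n
  val_inv := by
    ext a b
    obtain ⟨a', rfl⟩ := (rotE p (Fin n)).surjective a
    rw [pm_mul, Matrix.one_apply]
    unfold pm'
    split_ifs <;> rfl
  inv_val := by
    ext a b
    rw [mul_pm, Matrix.one_apply]
    unfold pm'
    by_cases h : a = b
    · rw [if_pos h, if_pos (by rw [h])]
    · rw [if_neg h, if_neg fun h' => h ((rotE p (Fin n)).injective h')]

/-- the tensor product of units -/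
def tpU {q n : ℕ} (M : Fin q → (Matrix (Fin n) (Fin n) F)ˣ) :
    (Matrix (Fin q → Fin n) (Fin q → Fin n) F)ˣ where
  val := tp (fun j => (M j : Matrix (Fin n) (Fin n) F))
  inv := tp (fun j => ((M j)⁻¹ : (Matrix (Fin n) (Fin n) F)ˣ))
  val_inv := by
    rw [tp_mul]
    simp only [Units.mul_inv]
    exact tp_one
  inv_val := by
    rw [tp_mul]
    simp only [Units.inv_mul]
    exact tp_one

theorem span_tp {q n : ℕ} (S : Set (Matrix (Fin n) (Fin n) F))
    (hS : Submodule.span F S = ⊤) :
    Submodule.span F {M | ∃ N : Fin q → Matrix (Fin n) (Fin n) F, (∀ j, N j ∈ S) ∧ M = tp N} = ⊤ := by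
  have key : ∀ k : ℕ, k ≤ q → ∀ N : Fin q → Matrix (Fin n) (Fin n) F,
      (∀ j : Fin q, k ≤ j.val → N j ∈ S) →
      tp N ∈ Submodule.span F
        {M | ∃ N : Fin q → Matrix (Fin n) (Fin n) F, (∀ j, N j ∈ S) ∧ M = tp N} := by
    intro k
    induction k with
    | zero => exact fun _ N hN => Submodule.subset_span ⟨N, fun j => hN j (Nat.zero_le _), rfl⟩
    | succ k ih =>
      intro hk N hN
      have hup : ∀ X : Matrix (Fin n) (Fin n) F, tp (Function.update N ⟨k, hk⟩ X) =
          fun a b => X (a ⟨k, hk⟩) (b ⟨k, hk⟩) *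
            ∏ j ∈ Finset.univ.erase ⟨k, hk⟩, N j (a j) (b j) := by
        intro X
        funext a b
        unfold tp
        rw [← Finset.mul_prod_erase Finset.univ _ (Finset.mem_univ ⟨k, hk⟩), Function.update_self]
        congr 1
        apply Finset.prod_congr rfl
        intro j hj
        rw [Function.update_of_ne (Finset.ne_of_mem_erase hj)]
      have hall : ∀ X ∈ Submodule.span F S, tp (Function.update N ⟨k, hk⟩ X) ∈ Submodule.span F
          {M | ∃ N : Fin q → Matrix (Fin n) (Fin n) F, (∀ j, N j ∈ S) ∧ M = tp N} := by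
        intro X hX
        induction hX using Submodule.span_induction with
        | mem X hX =>
          apply ih (by omega)
          intro j hj
          by_cases h : j = ⟨k, hk⟩
          · subst h
            rw [Function.update_self]
            exact hX
          · rw [Function.update_of_ne h]
            apply hN
            rcases Nat.lt_or_ge k j.val with h1 | h1
            · exact h1
            · exact absurd (Fin.ext (le_antisymm h1 hj)) h
        | zero =>
          have : tp (Function.update N ⟨k, hk⟩ (0 : Matrix (Fin n) (Fin n) F)) = 0 := by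
            rw [hup]
            funext a b
            simp
          rw [this]
          exact Submodule.zero_mem _
        | add X Y _ _ hX hY =>
          have : tp (Function.update N ⟨k, hk⟩ (X + Y)) = tp (Function.update N ⟨k, hk⟩ X) +
              tp (Function.update N ⟨k, hk⟩ Y) := by
            rw [hup, hup, hup]
            funext a b
            simp [add_mul]
          rw [this]
          exact Submodule.add_mem _ hX hY
        | smul c X _ hX =>
          have : tp (Function.update N ⟨k, hk⟩ (c • X)) =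
              c • tp (Function.update N ⟨k, hk⟩ X) := by
            rw [hup, hup]
            funext a b
            simp [mul_assoc]
          rw [this]
          exact Submodule.smul_mem _ _ hX
      have := hall (N ⟨k, hk⟩) (by rw [hS]; exact Submodule.mem_top)
      rwa [Function.update_eq_self] at this
  rw [eq_top_iff]
  intro M _
  rw [Matrix.matrix_eq_sum_single M]
  refine Submodule.sum_mem _ fun a _ => Submodule.sum_mem _ fun b _ => ?_
  have h1 : Matrix.single a b (M a b) = M a b • tp (fun j => Matrix.single (a j) (b j) (1 : F)) := by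
    ext c d
    rw [Matrix.smul_apply, smul_eq_mul]
    unfold tp
    simp only [Matrix.single_apply]
    by_cases h : a = c ∧ b = d
    · obtain ⟨rfl, rfl⟩ := h
      simp
    · rw [if_neg h]
      have : ∃ j, ¬ (a j = c j ∧ b j = d j) := by
        by_contra hcon
        push Not at hcon
        exact h ⟨funext fun j => (hcon j).1, funext fun j => (hcon j).2⟩
      obtain ⟨j, hj⟩ := this
      rw [Finset.prod_eq_zero (Finset.mem_univ j), mul_zero]
      rw [if_neg hj]
  rw [h1]
  exact Submodule.smul_mem _ _ (key q le_rfl _ fun j hj => absurd hj (not_le.2 j.2))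

end mat

section rep

variable {F K : Type} [Field F] [Group K] {X : Subgroup K}

/-- the power of a subgroup -/
abbrev PW (q : ℕ) (X : Subgroup K) : Subgroup (Fin q → K) :=
  Subgroup.pi Set.univ (fun _ : Fin q => X)

theorem mem_PW {q : ℕ} {X : Subgroup K} {x : Fin q → K} : x ∈ PW q X ↔ ∀ j, x j ∈ X := by
  rw [Subgroup.mem_pi]
  exact ⟨fun h j => h j (Set.mem_univ _), fun h j _ => h j⟩

/-- the components -/
def cmp {q : ℕ} (x : PW q X) (j : Fin q) : X := ⟨x.1 j, mem_PW.1 x.2 j⟩

/-- the power as a product -/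
def cmpE (q : ℕ) (X : Subgroup K) : PW q X ≃ (Fin q → X) where
  toFun := cmp
  invFun x := ⟨fun j => x j, mem_PW.2 fun j => (x j).2⟩
  left_inv _ := rfl
  right_inv _ := rfl

/-- the tensor power of a representation -/
def rp (q : ℕ) {n : ℕ} (σ : X →* Matrix (Fin n) (Fin n) F) :
    PW q X →* Matrix (Fin (n ^ q)) (Fin (n ^ q)) F where
  toFun x := rx q n (tp fun j => σ (cmp x j))
  map_one' := by
    have : (fun j => σ (cmp (1 : PW q X) j)) = fun _ => 1 := by
      funext j
      exact map_one σ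
    rw [this, tp_one, map_one]
  map_mul' x y := by
    rw [← map_mul, tp_mul]
    congr 2
    funext j
    exact map_mul σ (cmp x j) (cmp y j)

theorem rp_apply (q : ℕ) {n : ℕ} (σ : X →* Matrix (Fin n) (Fin n) F) (x : PW q X) :
    rp q σ x = rx q n (tp fun j => σ (cmp x j)) := rfl

theorem rp_irr (q : ℕ) {n : ℕ} {σ : X →* Matrix (Fin n) (Fin n) F} (hσ : IsIrr σ) :
    IsIrr (rp q σ) := by
  refine ⟨pow_pos hσ.1 q, ?_⟩
  have h1 := span_tp (q := q) (Set.range σ) hσ.2
  have h2 : Set.range (rp q σ) = (rx q n).toLinearMap '' {M | ∃ N : Fin q → Matrix (Fin n) (Fin n) F,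
      (∀ j, N j ∈ Set.range σ) ∧ M = tp N} := by
    ext M
    constructor
    · rintro ⟨x, rfl⟩
      exact ⟨_, ⟨_, fun j => ⟨cmp x j, rfl⟩, rfl⟩, rfl⟩
    · rintro ⟨_, ⟨N, hN, rfl⟩, rfl⟩
      choose x hx using hN
      refine ⟨(cmpE q X).symm x, ?_⟩
      rw [rp_apply]
      show rx q n _ = rx q n _
      congr 2
      funext j
      exact hx j
  rw [h2, ← Submodule.map_span, h1, Submodule.map_top]
  exact LinearMap.range_eq_top.2 (rx q n).surjective

theorem rp_tr (q : ℕ) {n : ℕ} (σ : X →* Matrix (Fin n) (Fin n) F) :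
    tr (rp q σ) = fun x : PW q X => ∏ j, tr σ (cmp x j) := by
  funext x
  unfold tr
  rw [rp_apply, rx_trace, tp_trace]

theorem rp_ev [Finite K] (q : ℕ) {n : ℕ} (σ : X →* Matrix (Fin n) (Fin n) F) (v : Fin q → K → F) :
    ev (rp q σ) (fun x : PW q X => ∏ j, v j (x.1 j)) =
      rx q n (tp fun j => ev σ (fun t : X => v j t)) := by
  have := Fintype.ofFinite X
  have := Fintype.ofFinite (PW q X)
  unfold ev
  simp only [finsum_eq_sum_of_fintype]
  rw [tp_sum, map_sum, ← Equiv.sum_comp (cmpE q X)]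
  apply Finset.sum_congr rfl
  intro x _
  rw [rp_apply, ← map_smul]
  congr 1
  exact (tp_smul (fun j => v j (x.1 j)) (fun j => σ (cmp x j))).symm

/-- reindexed units -/
def rxU (q n : ℕ) : (Matrix (Fin q → Fin n) (Fin q → Fin n) F)ˣ →*
    (Matrix (Fin (n ^ q)) (Fin (n ^ q)) F)ˣ :=
  Units.map (MonoidHomClass.toMonoidHom (rx (F := F) q n))

theorem rxU_val (q n : ℕ) (A : (Matrix (Fin q → Fin n) (Fin q → Fin n) F)ˣ) :
    ((rxU q n A : (Matrix (Fin (n ^ q)) (Fin (n ^ q)) F)ˣ) : Matrix _ _ F) = rx q n A := rfl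

theorem impl_diag (q : ℕ) {n : ℕ} {σ : X →* Matrix (Fin n) (Fin n) F} {αs : Fin q → MulAut K}
    {α : MulAut (Fin q → K)} (hα : ∀ k j, (α k) j = αs j (k j))
    {T : Fin q → (Matrix (Fin n) (Fin n) F)ˣ} (hT : ∀ j, Impl σ (αs j) (T j)) :
    Impl (rp q σ) α (rxU q n (tpU T)) := by
  intro h h' hh
  rw [rxU_val, rp_apply, rp_apply, ← map_mul, ← map_mul]
  congr 1
  show tp _ * tp _ = tp _ * tp _
  rw [tp_mul, tp_mul]
  congr 1
  funext j
  apply hT j
  show h'.1 j = αs j (h.1 j)
  rw [hh, hα]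

/-- the implementer of the shift: the first slot -/
def fst (p : ℕ) {n : ℕ} (T : (Matrix (Fin n) (Fin n) F)ˣ) : Fin (p + 1) → (Matrix (Fin n) (Fin n) F)ˣ :=
  Fin.cons T (fun _ => 1)

theorem fst_zero (p : ℕ) {n : ℕ} (T : (Matrix (Fin n) (Fin n) F)ˣ) : fst p T 0 = T := by
  unfold fst
  rw [Fin.cons_zero]

theorem fst_succ (p : ℕ) {n : ℕ} (T : (Matrix (Fin n) (Fin n) F)ˣ) (j : Fin p) :
    fst p T j.succ = 1 := by
  unfold fst
  rw [Fin.cons_succ]

theorem impl_shift (p : ℕ) {n : ℕ} {σ : X →* Matrix (Fin n) (Fin n) F} {β₀ : MulAut K}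
    {β : MulAut (Fin (p + 1) → K)} (hβ : IsShift p β β₀)
    {T : (Matrix (Fin n) (Fin n) F)ˣ} (hT : Impl σ β₀ T) :
    Impl (rp (p + 1) σ) β (rxU (p + 1) n (tpU (fst p T) * pmU F p n)) := by
  intro h h' hh
  rw [rxU_val, rp_apply, rp_apply, ← map_mul, ← map_mul]
  congr 1
  show tp _ * pm F p n * tp _ = tp _ * (tp _ * pm F p n)
  rw [mul_assoc, pm_tp, ← mul_assoc, tp_mul, ← mul_assoc, tp_mul]
  congr 2
  funext j
  refine Fin.cases ?_ (fun i => ?_) j
  · rw [rot_zero, fst_zero]
    apply hT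
    show h'.1 0 = β₀ (h.1 (Fin.last p))
    rw [hh, (hβ _).1]
  · rw [rot_succ, fst_succ, Units.val_one, one_mul, mul_one]
    congr 1
    apply Subtype.ext
    show h.1 i.castSucc = h'.1 i.succ
    rw [hh, (hβ _).2]

/-- the slots of the commutator -/
def slots {p n : ℕ} (Ts : Fin (p + 1) → (Matrix (Fin n) (Fin n) F)ˣ)
    (T : (Matrix (Fin n) (Fin n) F)ˣ) : Fin (p + 1) → (Matrix (Fin n) (Fin n) F)ˣ :=
  Fin.cons (Ts 0 * T * (Ts (Fin.last p))⁻¹ * T⁻¹) (fun j => Ts j.succ * (Ts j.castSucc)⁻¹)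

theorem comm_slots {p n : ℕ} (Ts : Fin (p + 1) → (Matrix (Fin n) (Fin n) F)ˣ)
    (T : (Matrix (Fin n) (Fin n) F)ˣ) :
    tpU Ts * (tpU (fst p T) * pmU F p n) * (tpU Ts)⁻¹ * (tpU (fst p T) * pmU F p n)⁻¹ =
      tpU (slots Ts T) := by
  rw [mul_inv_eq_iff_eq_mul, mul_inv_eq_iff_eq_mul]
  apply Units.ext
  show tp _ * (tp _ * pm F p n) = tp _ * (tp _ * pm F p n) * tp _
  rw [← mul_assoc, tp_mul, mul_assoc, mul_assoc (tp _) (pm F p n), pm_tp, ← mul_assoc (tp _) (tp _)
    (pm F p n), tp_mul, ← mul_assoc, tp_mul]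
  congr 2
  funext j
  refine Fin.cases ?_ (fun i => ?_) j
  · unfold slots
    rw [Fin.cons_zero, fst_zero, rot_zero, ← Units.val_mul, ← Units.val_mul, ← Units.val_mul]
    congr 1
    group
  · unfold slots
    rw [Fin.cons_succ, fst_succ, rot_succ, ← Units.val_mul, ← Units.val_mul, ← Units.val_mul]
    congr 1
    group

/-- **The scalar of the tensor power.** -/
theorem isTS_power [Finite K] (p : ℕ) {n : ℕ} {σ : X →* Matrix (Fin n) (Fin n) F} (hσ : IsIrr σ)
    {αs : Fin (p + 1) → MulAut K} {β₀ : MulAut K} {α β : MulAut (Fin (p + 1) → K)}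
    (hα : ∀ k j, (α k) j = αs j (k j)) (hβ : IsShift p β β₀)
    {Ts : Fin (p + 1) → (Matrix (Fin n) (Fin n) F)ˣ} (hTs : ∀ j, Impl σ (αs j) (Ts j))
    {T : (Matrix (Fin n) (Fin n) F)ˣ} (hT : Impl σ β₀ T) (v : Fin (p + 1) → K → F)
    (θ : Fin (p + 1) → F) (hθ : ∀ j, ((slots Ts T j : (Matrix (Fin n) (Fin n) F)ˣ) :
      Matrix (Fin n) (Fin n) F) * ev σ (fun t : X => v j t) = Matrix.scalar (Fin n) (θ j)) :
    IsTS (PW (p + 1) X) (fun x : PW (p + 1) X => ∏ j, tr σ (cmp x j)) α β
      (fun k => ∏ j, v j (k j)) (∏ j, θ j) := by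
  refine ⟨n ^ (p + 1), rp (p + 1) σ, rxU _ _ (tpU Ts), rxU _ _ (tpU (fst p T) * pmU F p n),
    rp_irr _ hσ, rp_tr _ σ, impl_diag _ hα hTs, impl_shift p hβ hT, ?_⟩
  rw [← map_inv, ← map_inv, ← map_mul, ← map_mul, ← map_mul, comm_slots, rxU_val]
  have h1 := rp_ev (p + 1) σ v
  rw [h1, ← map_mul, ← rx_scalar]
  congr 1
  show tp _ * tp _ = _
  rw [tp_mul, ← tp_scalar]
  congr 1
  funext j
  exact hθ j

end rep

end Pool.Agent.PP.H17
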