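import Pool.Agent.Helper18_PP.StmtsC
import Pool.Agent.Helper17_PP.Tns
import Pool.Agent.Helper65_PP.Shf

/-!
Squad PP (AWC), part CYD, module OPS: the scalars of the direct power with a cyclic shift.
-/

open scoped BigOperators

set_option linter.unusedSectionVars false

noncomputable section

namespace Pool.Agent.PP.H17

open Pool.Agent.Helper51_AWC Pool.Agent.Helper79_WRA Pool.Agent.PP

section aut

variable {K : Type} [Group K]

theorem tw_mul (γ δ : MulAut K) (c d : K) : tw γ c * tw δ d = tw (γ * δ) (δ⁻¹ c * d) := by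
  apply MulEquiv.ext
  intro y
  show γ (c * δ (d * y * d⁻¹) * c⁻¹) = γ (δ (δ⁻¹ c * d * y * (δ⁻¹ c * d)⁻¹))
  congr 1
  have h : δ (δ⁻¹ c) = c := MulAut.apply_inv_self K δ c
  rw [map_mul, map_mul, map_mul, map_mul, map_mul, map_inv, map_inv, map_mul, h]
  group

theorem tw_inv (γ : MulAut K) (c : K) : (tw γ c)⁻¹ = tw γ⁻¹ (γ c⁻¹) := by
  rw [inv_eq_iff_mul_eq_one, tw_mul, mul_inv_cancel]
  have h : (γ⁻¹)⁻¹ c * γ c⁻¹ = 1 := by
    rw [inv_inv, ← map_mul, mul_inv_cancel, map_one]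
  rw [h]
  unfold tw
  rw [map_one, mul_one]

theorem tw_inv_apply (γ : MulAut K) (c y : K) : (tw γ c)⁻¹ y = c⁻¹ * γ⁻¹ y * c := by
  rw [tw_inv]
  show γ⁻¹ (γ c⁻¹ * y * (γ c⁻¹)⁻¹) = _
  rw [map_mul, map_mul, map_inv γ⁻¹, MulAut.inv_apply_self, inv_inv]

/-- the type of a translate -/
theorem comm_tr {F : Type} {γ : MulAut K} {w : K → F} (hw : ∀ n y, w (γ⁻¹ n * y * n⁻¹) = w y)
    (c : K) : ∀ n y, (fun y => w (c * y)) ((tw γ c)⁻¹ n * y * n⁻¹) = (fun y => w (c * y)) y := by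
  intro n y
  show w (c * ((tw γ c)⁻¹ n * y * n⁻¹)) = w (c * y)
  rw [tw_inv_apply, ← hw n (c * y)]
  congr 1
  group

end aut

section mul

variable {F K : Type} [Field F] [Group K] [Finite K]

theorem mulF_comp (γ : MulAut K) (a b : K → F) :
    mulF (fun y => a (γ y)) (fun y => b (γ y)) = fun y => mulF a b (γ y) := by
  have := Fintype.ofFinite K
  funext x
  unfold mulF
  rw [finsum_eq_sum_of_fintype, finsum_eq_sum_of_fintype,
    ← Equiv.sum_comp γ.toEquiv (fun t => a t * b (t⁻¹ * γ x))]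
  apply Finset.sum_congr rfl
  intro t _
  show a (γ t) * b (γ (t⁻¹ * x)) = a (γ t) * b ((γ t)⁻¹ * γ x)
  rw [map_mul, map_inv]

/-- the type of a product -/
theorem comm_prod {γ₁ γ₂ : MulAut K} {w₁ w₂ : K → F} (h₁ : ∀ n y, w₁ (γ₁⁻¹ n * y * n⁻¹) = w₁ y)
    (h₂ : ∀ n y, w₂ (γ₂⁻¹ n * y * n⁻¹) = w₂ y) :
    ∀ n y, mulF (fun y => w₁ (γ₂ y)) w₂ ((γ₁ * γ₂)⁻¹ n * y * n⁻¹) =
      mulF (fun y => w₁ (γ₂ y)) w₂ y := by
  have := Fintype.ofFinite K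
  intro n y
  unfold mulF
  rw [finsum_eq_sum_of_fintype, finsum_eq_sum_of_fintype]
  symm
  refine Fintype.sum_equiv ((Equiv.mulLeft ((γ₁ * γ₂)⁻¹ n)).trans (Equiv.mulRight (γ₂⁻¹ n)⁻¹))
    _ _ fun s => ?_
  show w₁ (γ₂ s) * w₂ (s⁻¹ * y) = w₁ (γ₂ ((γ₁ * γ₂)⁻¹ n * s * (γ₂⁻¹ n)⁻¹)) *
    w₂ (((γ₁ * γ₂)⁻¹ n * s * (γ₂⁻¹ n)⁻¹)⁻¹ * ((γ₁ * γ₂)⁻¹ n * y * n⁻¹))
  have e1 : γ₂ ((γ₁ * γ₂)⁻¹ n * s * (γ₂⁻¹ n)⁻¹) = γ₁⁻¹ n * γ₂ s * n⁻¹ := by
    rw [map_mul, map_mul, map_inv, MulAut.apply_inv_self, mul_inv_rev, MulAut.mul_apply,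
      MulAut.apply_inv_self]
  have e2 : ((γ₁ * γ₂)⁻¹ n * s * (γ₂⁻¹ n)⁻¹)⁻¹ * ((γ₁ * γ₂)⁻¹ n * y * n⁻¹) =
      γ₂⁻¹ n * (s⁻¹ * y) * n⁻¹ := by group
  rw [e1, e2, h₁, h₂]

/-- products of translates -/
theorem prod_tr (γ₂ : MulAut K) (w₁ w₂ : K → F) (c₁ c₂ : K) :
    mulF (fun y => (fun y => w₁ (c₁ * y)) (tw γ₂ c₂ y)) (fun y => w₂ (c₂ * y)) =
      fun y => mulF (fun y => w₁ (γ₂ y)) w₂ (γ₂⁻¹ c₁ * c₂ * y) := by
  have := Fintype.ofFinite K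
  funext x
  unfold mulF
  rw [finsum_eq_sum_of_fintype, finsum_eq_sum_of_fintype]
  refine Fintype.sum_equiv (((Equiv.mulLeft c₂).trans (Equiv.mulLeft (γ₂⁻¹ c₁))).trans
    (Equiv.mulRight c₂⁻¹)) _ _ fun t => ?_
  show w₁ (c₁ * γ₂ (c₂ * t * c₂⁻¹)) * w₂ (c₂ * (t⁻¹ * x)) =
    w₁ (γ₂ (γ₂⁻¹ c₁ * (c₂ * t) * c₂⁻¹)) * w₂ ((γ₂⁻¹ c₁ * (c₂ * t) * c₂⁻¹)⁻¹ * (γ₂⁻¹ c₁ * c₂ * x))
  have e1 : γ₂ (γ₂⁻¹ c₁ * (c₂ * t) * c₂⁻¹) = c₁ * γ₂ (c₂ * t * c₂⁻¹) := by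
    rw [mul_assoc, map_mul, MulAut.apply_inv_self]
  have e2 : (γ₂⁻¹ c₁ * (c₂ * t) * c₂⁻¹)⁻¹ * (γ₂⁻¹ c₁ * c₂ * x) = c₂ * (t⁻¹ * x) := by group
  rw [e1, e2]

/-- products of units -/
theorem unt_prod {f : K → F} (hf : mulF f f = f) (hfc : IsCl f) {γ₁ γ₂ : MulAut K}
    (hf2 : ∀ y, f (γ₂ y) = f y) {w₁ wi₁ w₂ wi₂ : K → F} (h₁ : Unt f γ₁ w₁ wi₁)
    (h₂ : Unt f γ₂ w₂ wi₂) : Unt f (γ₁ * γ₂) (mulF (fun y => w₁ (γ₂ y)) w₂)
      (mulF wi₂ (fun y => wi₁ (γ₂ y))) := by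
  have hc : ∀ a, mulF f a = mulF a f := fun a => H75.mulF_comm_cl hfc a
  have hf3 : (fun y => f (γ₂ y)) = f := funext hf2
  have h1 : ∀ a, mulF f (fun y => a (γ₂ y)) = fun y => mulF f a (γ₂ y) := by
    intro a
    have := mulF_comp γ₂ f a
    rwa [hf3] at this
  refine ⟨?_, ?_, ?_, ?_, comm_prod h₁.comm h₂.comm⟩
  · rw [← mulF_assoc, h1, h₁.fw]
  · rw [← mulF_assoc, h₂.fwi]
  · calc mulF (mulF (fun y => w₁ (γ₂ y)) w₂) (mulF wi₂ (fun y => wi₁ (γ₂ y)))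
        = mulF (fun y => w₁ (γ₂ y)) (mulF (mulF w₂ wi₂) (fun y => wi₁ (γ₂ y))) := by
          rw [mulF_assoc, ← mulF_assoc w₂]
      _ = f := by
          rw [h₂.unit, h1, h₁.fwi, mulF_comp, h₁.unit]
          exact hf3
  · calc mulF (mulF wi₂ (fun y => wi₁ (γ₂ y))) (mulF (fun y => w₁ (γ₂ y)) w₂)
        = mulF wi₂ (mulF (mulF (fun y => wi₁ (γ₂ y)) (fun y => w₁ (γ₂ y))) w₂) := by
          rw [mulF_assoc, ← mulF_assoc (fun y => wi₁ (γ₂ y))]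
      _ = f := by
          rw [mulF_comp, h₁.unit', hf3, h₂.fw, h₂.unit']

/-- conjugates of units -/
theorem unt_conj {f : K → F} {γ β : MulAut K} (hfb : ∀ y, f (β y) = f y) {w wi : K → F}
    (h : Unt f γ w wi) : Unt f (β * γ * β⁻¹) (fun y => w (β⁻¹ y)) (fun y => wi (β⁻¹ y)) := by
  have hf3 : (fun y => f (β⁻¹ y)) = f := by
    funext y
    rw [← hfb, MulAut.apply_inv_self]
  have h1 : ∀ a b : K → F, mulF (fun y => a (β⁻¹ y)) (fun y => b (β⁻¹ y)) =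
      fun y => mulF a b (β⁻¹ y) := fun a b => mulF_comp β⁻¹ a b
  refine ⟨?_, ?_, ?_, ?_, ?_⟩
  · have := h1 f w
    rw [hf3, h.fw] at this
    exact this
  · have := h1 f wi
    rw [hf3, h.fwi] at this
    exact this
  · rw [h1, h.unit]
    exact hf3
  · rw [h1, h.unit']
    exact hf3
  · intro n y
    rw [map_mul, map_mul, map_inv β⁻¹, ← h.comm (β⁻¹ n) (β⁻¹ y)]
    congr 3
    rw [mul_inv_rev, mul_inv_rev, inv_inv, MulAut.mul_apply, MulAut.mul_apply,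
      MulAut.inv_apply_self]

/-- conjugates of translates -/
theorem conj_tr {γ : MulAut K} {w : K → F} (hw : ∀ n y, w (γ⁻¹ n * y * n⁻¹) = w y)
    (β : MulAut K) (μ c : K) : (fun y => (fun y => w (c * y)) ((tw β μ)⁻¹ y)) =
      fun y => (fun y => w (β⁻¹ y)) (β (γ⁻¹ μ * c * μ⁻¹) * y) := by
  funext x
  show w (c * (tw β μ)⁻¹ x) = w (β⁻¹ (β (γ⁻¹ μ * c * μ⁻¹) * x))
  rw [tw_inv_apply, map_mul, MulAut.inv_apply_self, ← hw μ (c * (μ⁻¹ * β⁻¹ x * μ))]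
  congr 1
  group

end mul

section ops

variable {F K : Type} [Field F] [Group K] [Finite K]

theorem scal_mul {n : ℕ} (s t : F) : Matrix.scalar (Fin n) s * Matrix.scalar (Fin n) t =
    Matrix.scalar (Fin n) (s * t) := (map_mul _ _ _).symm

/-- **The product rule.** -/
theorem rule (hThe : TheStmt) {ℓ : ℕ} (hF : GoodF ℓ F) {e : Finset (Subgroup K)}
    (he : e ∈ chainsOn (psubIn ℓ (⊤ : Subgroup K)) ⊥) (hn : NormalChain e) {n : ℕ}
    {σ : stab e →* Matrix (Fin n) (Fin n) F} (hσ : IsIrr σ) {γ₁ γ₂ : MulAut K} {c₁ c₂ : K}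
    (h₁ : FixC (tw γ₁ c₁) e) (h₂ : FixC (tw γ₂ c₂) e) {w₁ w₂ : K → F}
    (hw₁ : ∀ n y, w₁ (γ₁⁻¹ n * y * n⁻¹) = w₁ y) (hw₂ : ∀ n y, w₂ (γ₂⁻¹ n * y * n⁻¹) = w₂ y)
    {A₁ A₂ : (Matrix (Fin n) (Fin n) F)ˣ} (hA₂ : Impl σ (tw γ₂ c₂) A₂) {s₁ s₂ : F}
    (hs₁ : (A₁ : Matrix (Fin n) (Fin n) F) * ev σ (fun t : stab e => w₁ (c₁ * t)) =
      Matrix.scalar (Fin n) s₁)
    (hs₂ : (A₂ : Matrix (Fin n) (Fin n) F) * ev σ (fun t : stab e => w₂ (c₂ * t)) =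
      Matrix.scalar (Fin n) s₂) :
    ((A₁ * A₂ : (Matrix (Fin n) (Fin n) F)ˣ) : Matrix (Fin n) (Fin n) F) *
      ev σ (fun t : stab e => mulF (fun y => w₁ (γ₂ y)) w₂ (γ₂⁻¹ c₁ * c₂ * t)) =
      Matrix.scalar (Fin n) (s₁ * s₂) := by
  have h := hThe ℓ F hF K e he hn n σ hσ (tw γ₁ c₁) (tw γ₂ c₂) h₁ h₂ (fun y => w₁ (c₁ * y))
    (fun y => w₂ (c₂ * y)) (comm_tr hw₁ c₁) (comm_tr hw₂ c₂) A₂ hA₂
  rw [prod_tr] at h
  rw [Units.val_mul, mul_assoc, ← h, ← scal_mul, ← hs₁, ← hs₂]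
  simp only [mul_assoc]

/-- **The conjugation rule.** -/
theorem rule_conj {e : Finset (Subgroup K)} {n : ℕ} {σ : stab e →* Matrix (Fin n) (Fin n) F}
    {γ β : MulAut K} {μ c : K} (hβ : FixC (tw β μ) e) {w : K → F}
    (hw : ∀ n y, w (γ⁻¹ n * y * n⁻¹) = w y) {A T : (Matrix (Fin n) (Fin n) F)ˣ}
    (hT : Impl σ (tw β μ) T) {s : F}
    (hs : (A : Matrix (Fin n) (Fin n) F) * ev σ (fun t : stab e => w (c * t)) =
      Matrix.scalar (Fin n) s) :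
    ((T * A * T⁻¹ : (Matrix (Fin n) (Fin n) F)ˣ) : Matrix (Fin n) (Fin n) F) *
      ev σ (fun t : stab e => (fun y => w (β⁻¹ y)) (β (γ⁻¹ μ * c * μ⁻¹) * t)) =
      Matrix.scalar (Fin n) s := by
  have h := H18.ev_aut σ (tw β μ) (H21.FixC.stab_iff hβ) T hT (fun y => w (c * y))
  have h1 := conj_tr hw β μ c
  have h2 : (fun t : stab e => (fun y => w (c * y)) ((tw β μ)⁻¹ (t : K))) =
      fun t : stab e => (fun y => w (β⁻¹ y)) (β (γ⁻¹ μ * c * μ⁻¹) * t) := by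
    funext t
    exact congrFun h1 t
  rw [h2] at h
  apply H18.cancel_unit T
  rw [mul_assoc, ← h, Units.val_mul, Units.val_mul]
  calc (T : Matrix (Fin n) (Fin n) F) * A * ((T⁻¹ : (Matrix (Fin n) (Fin n) F)ˣ) :
        Matrix (Fin n) (Fin n) F) * (T * ev σ (fun t : stab e => w (c * t)))
      = T * A * (((T⁻¹ : (Matrix (Fin n) (Fin n) F)ˣ) : Matrix (Fin n) (Fin n) F) * T) *
        ev σ (fun t : stab e => w (c * t)) := by simp only [mul_assoc]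
    _ = T * (A * ev σ (fun t : stab e => w (c * t))) := by
        rw [Units.inv_mul, mul_one, mul_assoc]
    _ = _ := by
        rw [hs, Matrix.scalar_apply, ← Matrix.smul_one_eq_diagonal, mul_smul_comm, mul_one,
          smul_mul_assoc, one_mul]

end ops

section data

variable {F K : Type} [Field F] [Group K] [Finite K]

theorem kap_succ {p : ℕ} {αs : Fin (p + 1) → MulAut K} {β₀ : MulAut K}
    {α β : MulAut (Fin (p + 1) → K)} {κ : Fin (p + 1) → MulAut K}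
    (hα : ∀ k j, (α k) j = αs j (k j)) (hβ : IsShift p β β₀)
    (hκ : ∀ k j, (kap α β k) j = κ j (k j)) (j : Fin p) (y : K) :
    κ j.succ (αs j.castSucc y) = αs j.succ y := by
  have h1 : kap α β (β (α fun _ => y)) = α (β fun _ => y) := by
    unfold kap
    rw [MulAut.mul_apply, MulAut.inv_apply_self, MulAut.mul_apply, MulAut.inv_apply_self,
      MulAut.mul_apply]
  have h2 := congrFun h1 j.succ
  rw [hκ, hα, (hβ _).2, (hβ _).2, hα] at h2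
  exact h2

theorem kap_zero {p : ℕ} {αs : Fin (p + 1) → MulAut K} {β₀ : MulAut K}
    {α β : MulAut (Fin (p + 1) → K)} {κ : Fin (p + 1) → MulAut K}
    (hα : ∀ k j, (α k) j = αs j (k j)) (hβ : IsShift p β β₀)
    (hκ : ∀ k j, (kap α β k) j = κ j (k j)) (y : K) :
    κ 0 (β₀ (αs (Fin.last p) y)) = αs 0 (β₀ y) := by
  have h1 : kap α β (β (α fun _ => y)) = α (β fun _ => y) := by
    unfold kap
    rw [MulAut.mul_apply, MulAut.inv_apply_self, MulAut.mul_apply, MulAut.inv_apply_self,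
      MulAut.mul_apply]
  have h2 := congrFun h1 0
  rw [hκ, hα, (hβ _).1, (hβ _).1, hα] at h2
  exact h2

theorem ms_last (p : ℕ) (μ : K) :
    (Pi.mulSingle (Fin.last p) μ : Fin (p + 1) → K) (Fin.last p) = μ := Pi.mulSingle_eq_same _ _

theorem ms_cast (p : ℕ) (μ : K) (j : Fin p) :
    (Pi.mulSingle (Fin.last p) μ : Fin (p + 1) → K) j.castSucc = 1 :=
  Pi.mulSingle_eq_of_ne (Fin.castSucc_lt_last j).ne _

theorem cc_eq {Y : Type} [Group Y] (α β : MulAut Y) (n m : Y) :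
    kap α β (cc α β n m * β m) = α (n * β m * (β n)⁻¹) := by
  unfold cc
  rw [inv_mul_cancel_right, MulAut.apply_inv_self]

theorem cc_succ {p : ℕ} {αs : Fin (p + 1) → MulAut K} {β₀ : MulAut K}
    {α β : MulAut (Fin (p + 1) → K)} {κ : Fin (p + 1) → MulAut K}
    (hα : ∀ k j, (α k) j = αs j (k j)) (hβ : IsShift p β β₀)
    (hκ : ∀ k j, (kap α β k) j = κ j (k j)) (n : Fin (p + 1) → K) (μ : K) (j : Fin p) :
    (cc α β n (Pi.mulSingle (Fin.last p) μ)) j.succ =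
      αs j.castSucc (n j.succ * (n j.castSucc)⁻¹) := by
  have h1 := congrFun (cc_eq α β n (Pi.mulSingle (Fin.last p) μ)) j.succ
  rw [hκ, hα] at h1
  have h2 : ∀ x y : Fin (p + 1) → K, (x * y) j.succ = x j.succ * y j.succ := fun _ _ => rfl
  have h3 : ∀ x : Fin (p + 1) → K, (x⁻¹) j.succ = (x j.succ)⁻¹ := fun _ => rfl
  rw [h2, h2, h2, h3, (hβ _).2, (hβ _).2, ms_cast, mul_one, mul_one,
    ← kap_succ hα hβ hκ j] at h1
  exact (κ j.succ).injective h1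

theorem cc_zero {p : ℕ} {αs : Fin (p + 1) → MulAut K} {β₀ : MulAut K}
    {α β : MulAut (Fin (p + 1) → K)} {κ : Fin (p + 1) → MulAut K}
    (hα : ∀ k j, (α k) j = αs j (k j)) (hβ : IsShift p β β₀)
    (hκ : ∀ k j, (kap α β k) j = κ j (k j)) (n : Fin (p + 1) → K) (μ : K) :
    (cc α β n (Pi.mulSingle (Fin.last p) μ)) 0 =
      β₀ (αs (Fin.last p) (β₀⁻¹ (n 0) * μ * (n (Fin.last p))⁻¹)) * (β₀ μ)⁻¹ := by
  have h1 := congrFun (cc_eq α β n (Pi.mulSingle (Fin.last p) μ)) 0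
  rw [hκ, hα] at h1
  have h2 : ∀ x y : Fin (p + 1) → K, (x * y) 0 = x 0 * y 0 := fun _ _ => rfl
  have h3 : ∀ x : Fin (p + 1) → K, (x⁻¹) 0 = (x 0)⁻¹ := fun _ => rfl
  rw [h2, h2, h2, h3, (hβ _).1, (hβ _).1, ms_last] at h1
  have h4 : n 0 * β₀ μ * (β₀ (n (Fin.last p)))⁻¹ =
      β₀ (β₀⁻¹ (n 0) * μ * (n (Fin.last p))⁻¹) := by
    rw [map_mul, map_mul, map_inv, MulAut.apply_inv_self]
  rw [h4, ← kap_zero hα hβ hκ] at h1
  rw [← (κ 0).injective h1, mul_inv_cancel_right]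

theorem unt_self {f₀ : K → F} (hb : IsBlk f₀) : Unt f₀ (1 : MulAut K) f₀ f₀ := by
  refine ⟨hb.1.2, hb.1.2, hb.1.2, hb.1.2, fun n y => ?_⟩
  rw [inv_one]
  exact hb.1.1 y n

/-- the equality of the exponents in the product rule -/
theorem FixC.of_eq {γ δ : MulAut K} {e : Finset (Subgroup K)} (h : γ = δ) (hγ : FixC γ e) :
    FixC δ e := h ▸ hγ

/-- **The tail.** -/
theorem tail (hThe : TheStmt) {ℓ : ℕ} (hF : GoodF ℓ F) {p : ℕ} {f₀ : K → F}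
    {αs : Fin (p + 1) → MulAut K} {β₀ : MulAut K} {α β : MulAut (Fin (p + 1) → K)}
    {κ : Fin (p + 1) → MulAut K} {w wi : Fin (p + 1) → K → F}
    (D : PowD p f₀ αs β₀ α β κ w wi) (j : Fin (p + 1)) :
    ∃ V Vi : K → F, Unt f₀ (αs j * (αs 0)⁻¹) V Vi ∧
    ∀ e ∈ chainsOn (psubIn ℓ (⊤ : Subgroup K)) ⊥, NormalChain e → ∀ (n : Fin (p + 1) → K),
    (∀ i, FixC (tw (αs i) (n i)) e) → ∀ (N : ℕ) (σ : stab e →* Matrix (Fin N) (Fin N) F),
    IsIrr σ → ev σ (fun t : stab e => f₀ t) = 1 →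
    ∀ Ts : Fin (p + 1) → (Matrix (Fin N) (Fin N) F)ˣ,
    (∀ i, Impl σ (tw (αs i) (n i)) (Ts i)) → ∀ θ : Fin (p + 1) → F,
    (∀ i : Fin p, ((Ts i.succ * (Ts i.castSucc)⁻¹ : (Matrix (Fin N) (Fin N) F)ˣ) :
      Matrix (Fin N) (Fin N) F) * ev σ (fun t : stab e =>
        w i.succ (αs i.castSucc (n i.succ * (n i.castSucc)⁻¹) * t)) =
      Matrix.scalar (Fin N) (θ i.succ)) →
    ((Ts j * (Ts 0)⁻¹ : (Matrix (Fin N) (Fin N) F)ˣ) : Matrix (Fin N) (Fin N) F) *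
      ev σ (fun t : stab e => V (αs 0 (n j * (n 0)⁻¹) * t)) =
      Matrix.scalar (Fin N) (∏ i ∈ Finset.univ.filter (fun i : Fin (p + 1) => 0 < i ∧ i ≤ j), θ i) := by
  induction j using Fin.induction with
  | zero =>
    refine ⟨f₀, f₀, ?_, ?_⟩
    · rw [mul_inv_cancel]
      exact unt_self D.blk
    · intro e _ _ n _ N σ _ hσf Ts _ θ _
      have h1 : Finset.univ.filter (fun i : Fin (p + 1) => 0 < i ∧ i ≤ 0) = ∅ := by
        apply Finset.filter_eq_empty_iff.2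
        rintro i _ ⟨h1, h2⟩
        exact absurd h1 (not_lt.2 h2)
      rw [h1, Finset.prod_empty, mul_inv_cancel, mul_inv_cancel, map_one, map_one, Units.val_one,
        one_mul]
      simp only [one_mul]
      exact hσf
  | succ i ih =>
    obtain ⟨V, Vi, hV, hop⟩ := ih
    have hty : κ i.succ * (αs i.castSucc * (αs 0)⁻¹) = αs i.succ * (αs 0)⁻¹ := by
      apply MulEquiv.ext
      intro y
      exact kap_succ D.al D.sh D.kap i _
    have hfi : ∀ j y, f₀ ((αs j)⁻¹ y) = f₀ y := fun j y => by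
      rw [← D.fa j, MulAut.apply_inv_self]
    refine ⟨_, _, hty ▸ unt_prod D.blk.1.2 D.blk.1.1 (γ₂ := αs i.castSucc * (αs 0)⁻¹)
      (fun y => by rw [MulAut.mul_apply, D.fa, hfi]) (D.unt i.succ) hV, ?_⟩
    intro e he hn n hfix N σ hσ hσf Ts hTs θ hθ
    have h1 := hop e he hn n hfix N σ hσ hσf Ts hTs θ hθ
    have ht2 : tw (αs i.castSucc * (αs 0)⁻¹) (αs 0 (n i.castSucc * (n 0)⁻¹)) =
        tw (αs i.castSucc) (n i.castSucc) * (tw (αs 0) (n 0))⁻¹ := by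
      rw [tw_inv, tw_mul, inv_inv, ← map_mul]
    have ht1 : tw (κ i.succ) (αs i.castSucc (n i.succ * (n i.castSucc)⁻¹)) =
        tw (αs i.succ) (n i.succ) * (tw (αs i.castSucc) (n i.castSucc))⁻¹ := by
      rw [tw_inv, tw_mul, inv_inv, ← map_mul]
      congr 1
      apply MulEquiv.ext
      intro y
      rw [MulAut.mul_apply, ← kap_succ D.al D.sh D.kap i, MulAut.apply_inv_self]
    have h2 := rule hThe hF he hn hσ (γ₁ := κ i.succ)
      (c₁ := αs i.castSucc (n i.succ * (n i.castSucc)⁻¹))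
      (γ₂ := αs i.castSucc * (αs 0)⁻¹) (c₂ := αs 0 (n i.castSucc * (n 0)⁻¹))
      (ht1 ▸ H21.FixC.mul (hfix _) (H21.FixC.inv (hfix _)))
      (ht2 ▸ H21.FixC.mul (hfix _) (H21.FixC.inv (hfix _))) (D.unt i.succ).comm hV.comm
      (A₁ := Ts i.succ * (Ts i.castSucc)⁻¹) (A₂ := Ts i.castSucc * (Ts 0)⁻¹)
      (ht2 ▸ H18.impl_mul (H21.FixC.stab_iff (H21.FixC.inv (hfix _))) (hTs _)
        (H18.impl_inv (hTs _))) (hθ i) h1
    have h3 : (αs i.castSucc * (αs 0)⁻¹)⁻¹ (αs i.castSucc (n i.succ * (n i.castSucc)⁻¹)) *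
        αs 0 (n i.castSucc * (n 0)⁻¹) = αs 0 (n i.succ * (n 0)⁻¹) := by
      rw [mul_inv_rev, inv_inv, MulAut.mul_apply, MulAut.inv_apply_self, ← map_mul]
      congr 1
      group
    have h4 : (Ts i.succ * (Ts i.castSucc)⁻¹) * (Ts i.castSucc * (Ts 0)⁻¹) =
        Ts i.succ * (Ts 0)⁻¹ := by group
    have h5 : Finset.univ.filter (fun k : Fin (p + 1) => 0 < k ∧ k ≤ i.succ) =
        insert i.succ (Finset.univ.filter (fun k : Fin (p + 1) => 0 < k ∧ k ≤ i.castSucc)) := by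
      ext k
      rw [Finset.mem_insert, Finset.mem_filter, Finset.mem_filter]
      simp only [Finset.mem_univ, true_and, Fin.lt_def, Fin.le_def, Fin.ext_iff, Fin.val_succ,
        Fin.val_castSucc, Fin.val_zero]
      omega
    rw [h3, h4] at h2
    rw [h5, Finset.prod_insert, h2]
    rw [Finset.mem_filter]
    rintro ⟨_, _, h6⟩
    exact absurd h6 (not_le.2 (Fin.castSucc_lt_succ))

end data

section fin

variable {F K : Type} [Field F] [Group K] [Finite K]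

theorem ts_eq {ℓ : ℕ} (hF : GoodF ℓ F) {X : Subgroup K} {α β : MulAut K}
    (hα : ∀ h, α h ∈ X ↔ h ∈ X) (hβ : ∀ h, β h ∈ X ↔ h ∈ X) {φ : X → F} {v : K → F} {s : F}
    (h : IsTS X φ α β v s) : ts X φ α β v = s := by
  unfold ts
  have hex : ∃ s, IsTS X φ α β v s := ⟨s, h⟩
  rw [dif_pos hex]
  exact H21.isTS_unique hF hα hβ hex.choose_spec h

/-- the automorphism of the first slot -/
theorem slot_zero {p : ℕ} {αs : Fin (p + 1) → MulAut K} {β₀ : MulAut K}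
    {α β : MulAut (Fin (p + 1) → K)} {κ : Fin (p + 1) → MulAut K}
    (hα : ∀ k j, (α k) j = αs j (k j)) (hβ : IsShift p β β₀)
    (hκ : ∀ k j, (kap α β k) j = κ j (k j)) (n : Fin (p + 1) → K) (μ : K) :
    tw (κ 0) ((cc α β n (Pi.mulSingle (Fin.last p) μ)) 0) =
      tw (αs 0) (n 0) * tw β₀ μ * (tw (αs (Fin.last p)) (n (Fin.last p)))⁻¹ * (tw β₀ μ)⁻¹ := by
  have h0 : κ 0 = αs 0 * β₀ * (αs (Fin.last p))⁻¹ * β₀⁻¹ := by
    apply MulEquiv.ext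
    intro y
    have := kap_zero hα hβ hκ ((αs (Fin.last p))⁻¹ (β₀⁻¹ y))
    rw [MulAut.apply_inv_self, MulAut.apply_inv_self] at this
    exact this
  rw [cc_zero hα hβ hκ, tw_inv, tw_inv, tw_mul, tw_mul, tw_mul, ← h0, inv_inv, inv_inv,
    ← map_mul (αs (Fin.last p)), ← map_inv β₀]

/-- the automorphism of the other slots -/
theorem slot_succ {p : ℕ} {αs : Fin (p + 1) → MulAut K} {β₀ : MulAut K}
    {α β : MulAut (Fin (p + 1) → K)} {κ : Fin (p + 1) → MulAut K}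
    (hα : ∀ k j, (α k) j = αs j (k j)) (hβ : IsShift p β β₀)
    (hκ : ∀ k j, (kap α β k) j = κ j (k j)) (n : Fin (p + 1) → K) (μ : K) (i : Fin p) :
    tw (κ i.succ) ((cc α β n (Pi.mulSingle (Fin.last p) μ)) i.succ) =
      tw (αs i.succ) (n i.succ) * (tw (αs i.castSucc) (n i.castSucc))⁻¹ := by
  rw [cc_succ hα hβ hκ, tw_inv, tw_mul, inv_inv, ← map_mul]
  congr 1
  apply MulEquiv.ext
  intro y
  rw [MulAut.mul_apply, ← kap_succ hα hβ hκ i, MulAut.apply_inv_self]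

/-- the translation element of the merged unit -/
theorem elt_eq (a₀ ap β₀ : MulAut K) (n₀ np μ : K) :
    (β₀ * (ap * a₀⁻¹) * β₀⁻¹)⁻¹ (β₀ (ap (β₀⁻¹ n₀ * μ * np⁻¹)) * (β₀ μ)⁻¹) *
      β₀ ((ap * a₀⁻¹)⁻¹ μ * a₀ (np * n₀⁻¹) * μ⁻¹) = cc a₀ β₀ n₀ μ := by
  unfold cc kap
  simp only [mul_inv_rev, inv_inv, MulAut.mul_apply, map_mul, map_inv, MulAut.inv_apply_self,
    MulAut.apply_inv_self]
  group

theorem ops (hThe : TheStmt) (hBij : BijStmt) : OpsStmt := by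
  intro ℓ _ F _ hF K _ _ p f₀ αs β₀ α β κ w wi D
  obtain ⟨V, Vi, hV, hop⟩ := tail hThe (ℓ := ℓ) hF D (Fin.last p)
  have hU := unt_conj (β := β₀) D.fb hV
  have hfi : ∀ j y, f₀ ((αs j)⁻¹ y) = f₀ y := fun j y => by
    rw [← D.fa j, MulAut.apply_inv_self]
  have hfbi : ∀ y, f₀ (β₀⁻¹ y) = f₀ y := fun y => by
    rw [← D.fb, MulAut.apply_inv_self]
  have hty : κ 0 * (β₀ * (αs (Fin.last p) * (αs 0)⁻¹) * β₀⁻¹) = kap (αs 0) β₀ := by
    apply MulEquiv.ext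
    intro y
    exact kap_zero D.al D.sh D.kap _
  have hW := unt_prod D.blk.1.2 D.blk.1.1 (γ₂ := β₀ * (αs (Fin.last p) * (αs 0)⁻¹) * β₀⁻¹)
      (fun y => by
        rw [MulAut.mul_apply, MulAut.mul_apply, MulAut.mul_apply, D.fb, D.fa, hfi, hfbi])
      (D.unt 0) hU
  rw [hty] at hW
  refine ⟨_, _, ⟨D.blk, D.fa 0, D.fb, hW⟩, ?_⟩
  intro e he hn n μ hfix hβ ψ hψ hψn
  obtain ⟨⟨N, σ, hσ, rfl⟩, hact, _, hψβ⟩ := hψ
  have hTs' : ∀ j, ∃ X, Impl σ (tw (αs j) (n j)) X := fun j =>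
    H21.exists_impl_tr hF hσ _ (H21.FixC.stab_iff (hfix j)) (hψn j)
  choose Ts hTs using hTs'
  obtain ⟨T, hT⟩ := H21.exists_impl_tr hF hσ (tw β₀ μ) (H21.FixC.stab_iff hβ) hψβ
  have hσf := H21.ev_f_one hF hσ D.blk.1.1 hact
  have hβs := H21.FixC.stab_iff hβ
  have hβs' := H21.FixC.stab_iff (H21.FixC.inv hβ)
  have hfs : ∀ j, ∀ h, (tw (αs j) (n j))⁻¹ h ∈ stab e ↔ h ∈ stab e := fun j =>
    H21.FixC.stab_iff (H21.FixC.inv (hfix j))
  -- the slots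
  have hsl : ∀ j, FixC (tw (κ j) ((cc α β n (Pi.mulSingle (Fin.last p) μ)) j)) e ∧
      Impl σ (tw (κ j) ((cc α β n (Pi.mulSingle (Fin.last p) μ)) j)) (slots Ts T j) := by
    intro j
    refine Fin.cases ?_ (fun i => ?_) j
    · rw [slot_zero D.al D.sh D.kap]
      refine ⟨H21.FixC.mul (H21.FixC.mul (H21.FixC.mul (hfix 0) hβ) (H21.FixC.inv (hfix _)))
        (H21.FixC.inv hβ), ?_⟩
      unfold slots
      rw [Fin.cons_zero]
      exact H18.impl_mul hβs' (H18.impl_mul (hfs _) (H18.impl_mul hβs (hTs 0) hT)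
        (H18.impl_inv (hTs _))) (H18.impl_inv hT)
    · rw [slot_succ D.al D.sh D.kap]
      refine ⟨H21.FixC.mul (hfix _) (H21.FixC.inv (hfix _)), ?_⟩
      unfold slots
      rw [Fin.cons_succ]
      exact H18.impl_mul (hfs _) (hTs _) (H18.impl_inv (hTs _))
  have hθ' : ∀ j, ∃ s : F, ((slots Ts T j : (Matrix (Fin N) (Fin N) F)ˣ) :
      Matrix (Fin N) (Fin N) F) * ev σ (fun t : stab e =>
        (fun y => w j ((cc α β n (Pi.mulSingle (Fin.last p) μ)) j * y)) t) =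
      Matrix.scalar (Fin N) s := fun j =>
    H21.scal_exists hσ (H21.FixC.stab_iff (hsl j).1) (hsl j).2
      (v := fun y => w j ((cc α β n (Pi.mulSingle (Fin.last p) μ)) j * y))
      (comm_tr (D.unt j).comm ((cc α β n (Pi.mulSingle (Fin.last p) μ)) j))
  choose θ hθ using hθ'
  -- the power
  have hP := isTS_power p hσ (αs := fun j => tw (αs j) (n j)) (β₀ := tw β₀ μ) (α := tw α n)
    (β := tw β (Pi.mulSingle (Fin.last p) μ)) (fun k j => by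
      show (α (n * k * n⁻¹)) j = _
      rw [D.al]
      rfl) (by
      intro k
      refine ⟨?_, fun j => ?_⟩
      · show (β (Pi.mulSingle (Fin.last p) μ * k * (Pi.mulSingle (Fin.last p) μ)⁻¹)) 0 = _
        rw [(D.sh _).1]
        show β₀ ((Pi.mulSingle (Fin.last p) μ : Fin (p + 1) → K) (Fin.last p) * k (Fin.last p) *
          ((Pi.mulSingle (Fin.last p) μ : Fin (p + 1) → K) (Fin.last p))⁻¹) = _
        rw [ms_last]
        rfl
      · show (β (Pi.mulSingle (Fin.last p) μ * k * (Pi.mulSingle (Fin.last p) μ)⁻¹)) j.succ = _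
        rw [(D.sh _).2]
        show (Pi.mulSingle (Fin.last p) μ : Fin (p + 1) → K) j.castSucc * k j.castSucc *
          ((Pi.mulSingle (Fin.last p) μ : Fin (p + 1) → K) j.castSucc)⁻¹ = _
        rw [ms_cast, one_mul, inv_one, mul_one]) hTs hT
    (fun j y => w j ((cc α β n (Pi.mulSingle (Fin.last p) μ)) j * y)) θ hθ
  obtain ⟨hB1, _, _, hB4⟩ := hBij ℓ K p αs β₀ α β D.al D.sh
  obtain ⟨_, _, hst, hB5⟩ := hB4 e he
  have hfα := (hB5 n).2 hfix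
  have hfβ := (hB1 μ e he hβ).2.2
  have key : ∀ X' : Subgroup (Fin (p + 1) → K), X' = PW (p + 1) (stab e) →
      IsTS X' (pwF (tr σ) X') (tw α n) (tw β (Pi.mulSingle (Fin.last p) μ))
        (fun y => ∏ j, w j ((cc α β n (Pi.mulSingle (Fin.last p) μ) * y) j)) (∏ j, θ j) := by
    rintro _ rfl
    have h1 : pwF (tr σ) (PW (p + 1) (stab e)) =
        fun x : PW (p + 1) (stab e) => ∏ j, tr σ (cmp x j) := by
      funext x
      unfold pwF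
      apply Finset.prod_congr rfl
      intro j _
      unfold ext0
      rw [dif_pos (mem_PW.1 x.2 j)]
      rfl
    rw [h1]
    exact hP
  rw [ts_eq hF (H21.FixC.stab_iff hfα) (H21.FixC.stab_iff hfβ) (key _ hst)]
  symm
  apply ts_eq hF (H21.FixC.stab_iff (hfix 0)) (H21.FixC.stab_iff hβ)
  refine ⟨N, σ, Ts 0, T, hσ, rfl, hTs 0, hT, ?_⟩
  have h1 := hop e he hn n hfix N σ hσ hσf Ts hTs θ (fun i => by
    have := hθ i.succ
    rw [cc_succ D.al D.sh D.kap] at this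
    unfold slots at this
    rw [Fin.cons_succ] at this
    exact this)
  have h2 := rule_conj hβ hV.comm hT h1
  have ht2 : tw (αs (Fin.last p) * (αs 0)⁻¹) (αs 0 (n (Fin.last p) * (n 0)⁻¹)) =
      tw (αs (Fin.last p)) (n (Fin.last p)) * (tw (αs 0) (n 0))⁻¹ := by
    rw [tw_inv, tw_mul, inv_inv, ← map_mul]
  have ht3 : tw (β₀ * (αs (Fin.last p) * (αs 0)⁻¹) * β₀⁻¹)
      (β₀ ((αs (Fin.last p) * (αs 0)⁻¹)⁻¹ μ * αs 0 (n (Fin.last p) * (n 0)⁻¹) * μ⁻¹)) =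
      tw β₀ μ * (tw (αs (Fin.last p)) (n (Fin.last p)) * (tw (αs 0) (n 0))⁻¹) *
        (tw β₀ μ)⁻¹ := by
    rw [← ht2, tw_inv, tw_mul, tw_mul, inv_inv, ← map_mul]
  have h3 := rule hThe hF he hn hσ (γ₁ := κ 0)
      (c₁ := (cc α β n (Pi.mulSingle (Fin.last p) μ)) 0)
      (γ₂ := β₀ * (αs (Fin.last p) * (αs 0)⁻¹) * β₀⁻¹)
      (c₂ := β₀ ((αs (Fin.last p) * (αs 0)⁻¹)⁻¹ μ * αs 0 (n (Fin.last p) * (n 0)⁻¹) * μ⁻¹))
      (w₁ := w 0) (w₂ := fun y => V (β₀⁻¹ y)) (hsl 0).1 (by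
        rw [ht3]
        exact H21.FixC.mul (H21.FixC.mul hβ (H21.FixC.mul (hfix _) (H21.FixC.inv (hfix _))))
          (H21.FixC.inv hβ)) (D.unt 0).comm hU.comm (A₁ := slots Ts T 0)
      (A₂ := T * (Ts (Fin.last p) * (Ts 0)⁻¹) * T⁻¹) (by
        rw [ht3]
        exact H18.impl_mul hβs' (H18.impl_mul
          (H21.FixC.stab_iff (H21.FixC.mul (hfix _) (H21.FixC.inv (hfix _)))) hT
          (H18.impl_mul (hfs _) (hTs _) (H18.impl_inv (hTs _)))) (H18.impl_inv hT)) (hθ 0) h2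
  have h4 : slots Ts T 0 * (T * (Ts (Fin.last p) * (Ts 0)⁻¹) * T⁻¹) =
      Ts 0 * T * (Ts 0)⁻¹ * T⁻¹ := by
    unfold slots
    rw [Fin.cons_zero]
    group
  have h5 : Finset.univ.filter (fun k : Fin (p + 1) => 0 < k ∧ k ≤ Fin.last p) =
      Finset.univ.erase 0 := by
    ext k
    rw [Finset.mem_filter, Finset.mem_erase]
    simp only [Finset.mem_univ, true_and, and_true]
    exact ⟨fun h => (Fin.pos_iff_ne_zero.1 h.1), fun h => ⟨Fin.pos_iff_ne_zero.2 h, Fin.le_last k⟩⟩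
  rw [cc_zero D.al D.sh D.kap, elt_eq, h4, h5, Finset.mul_prod_erase _ _ (Finset.mem_univ 0)] at h3
  exact h3

end fin

end Pool.Agent.PP.H17
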